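import Mathlib

set_option autoImplicit false

open Set Topology Filter

namespace Pool.Agent.Lib.MP_8afd67_gt

/-- `q` has a continuous logarithm. -/
def HasLog {Z : Type*} [TopologicalSpace Z] (q : Z → Circle) : Prop :=
  ∃ h : Z → ℝ, Continuous h ∧ ∀ z, q z = Circle.exp (h z)

/-- Angular closeness on the circle. -/
def Cl (r : ℝ) (w w' : Circle) : Prop := ∃ α : ℝ, |α| < r ∧ w' = w * Circle.exp α

lemma Cl.refl {r : ℝ} (hr : 0 < r) (w : Circle) : Cl r w w := ⟨0, by simpa using hr, by simp⟩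

lemma Cl.symm {r : ℝ} {w w' : Circle} (h : Cl r w w') : Cl r w' w := by
  obtain ⟨α, hα, rfl⟩ := h
  exact ⟨-α, by simpa using hα, by rw [mul_assoc, ← Circle.exp_add]; simp⟩

lemma Cl.trans {r r' : ℝ} {a b c : Circle} (h : Cl r a b) (h' : Cl r' b c) : Cl (r + r') a c := by
  obtain ⟨α, hα, rfl⟩ := h
  obtain ⟨β, hβ, rfl⟩ := h'
  exact ⟨α + β, lt_of_le_of_lt (abs_add_le _ _) (by linarith), by rw [mul_assoc, ← Circle.exp_add]⟩

lemma Cl.mono {r r' : ℝ} (h : r ≤ r') {a b : Circle} (hab : Cl r a b) : Cl r' a b := by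
  obtain ⟨α, hα, h2⟩ := hab
  exact ⟨α, hα.trans_le h, h2⟩

lemma circle_dist_eq (w w' : Circle) : dist w w' = ‖(w : ℂ) - w'‖ := by
  rw [← dist_eq_norm]; rfl

lemma dist_exp_one_le (α : ℝ) : dist (Circle.exp α) 1 ≤ |α| := by
  rw [circle_dist_eq, Circle.coe_exp, Circle.coe_one]
  rw [show (α : ℂ) * Complex.I = Complex.I * α by ring]
  simpa using Real.norm_exp_I_mul_ofReal_sub_one_le (x := α)

lemma dist_mul_exp_le (w : Circle) (α : ℝ) : dist w (w * Circle.exp α) ≤ |α| := by
  rw [dist_comm]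
  have h : dist (w * Circle.exp α) w = dist (Circle.exp α) 1 := by
    nth_rewrite 2 [← mul_one w]
    rw [circle_dist_eq, circle_dist_eq]
    rw [Circle.coe_mul, Circle.coe_mul, ← mul_sub, norm_mul, Circle.norm_coe, one_mul]
  rw [h]
  exact dist_exp_one_le α

lemma Cl.dist_lt {r : ℝ} {w w' : Circle} (h : Cl r w w') : dist w w' < r := by
  obtain ⟨α, hα, rfl⟩ := h
  exact lt_of_le_of_lt (dist_mul_exp_le w α) hα

lemma eventually_cl {r : ℝ} (hr : 0 < r) (w : Circle) : ∀ᶠ w' in 𝓝 w, Cl r w w' := by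
  have h1 : IsOpen ((fun w' : Circle => w⁻¹ * w') ⁻¹' Circle.centeredArc r) :=
    (Circle.isOpen_centeredArc r).preimage (by fun_prop)
  have h2 : w ∈ ((fun w' : Circle => w⁻¹ * w') ⁻¹' Circle.centeredArc r) := by
    simp only [mem_preimage, inv_mul_cancel]
    exact ⟨0, by simpa using hr, by simp⟩
  filter_upwards [h1.mem_nhds h2] with w' hw'
  obtain ⟨α, hα, h3⟩ := hw'
  refine ⟨α, hα, ?_⟩
  rw [h3]; simp

/-- Compactness: fibre control gives control on small arcs. -/
lemma exists_cl {X M : Type*} [TopologicalSpace X] [CompactSpace X] [PseudoMetricSpace M]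
    {p : X → Circle} (hp : Continuous p) {g : X → M} (hg : Continuous g) {ε : ℝ}
    (h : ∀ x x', p x = p x' → dist (g x) (g x') < ε) :
    ∃ r > 0, ∀ x x', Cl r (p x) (p x') → dist (g x) (g x') < ε := by
  let K : Set (X × X) := {z | ε ≤ dist (g z.1) (g z.2)}
  have hK : IsCompact K :=
    (isClosed_le continuous_const (by fun_prop)).isCompact
  rcases K.eq_empty_or_nonempty with hKe | hKn
  · refine ⟨1, one_pos, fun x x' _ => ?_⟩
    by_contra hcon
    have : (x, x') ∈ K := not_lt.mp hcon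
    rw [hKe] at this
    exact this
  · obtain ⟨z, hz, hmin⟩ := hK.exists_isMinOn hKn
      (f := fun z : X × X => dist (p z.1) (p z.2)) (by fun_prop)
    have hpos : 0 < dist (p z.1) (p z.2) := by
      rw [dist_pos]
      intro heq
      exact absurd (h _ _ heq) (not_lt.mpr hz)
    refine ⟨_, hpos, fun x x' hc => ?_⟩
    by_contra hcon
    have hm : (x, x') ∈ K := not_lt.mp hcon
    have := hmin hm
    simp only [mem_ofPred_eq] at this
    exact absurd hc.dist_lt (not_lt.mpr this)

lemma exists_dist {X M : Type*} [TopologicalSpace X] [CompactSpace X] [PseudoMetricSpace M]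
    {p : X → Circle} (hp : Continuous p) {g : X → M} (hg : Continuous g) {ε : ℝ}
    (h : ∀ x x', p x = p x' → dist (g x) (g x') < ε) :
    ∃ r > 0, ∀ x x', dist (p x) (p x') < r → dist (g x) (g x') < ε := by
  let K : Set (X × X) := {z | ε ≤ dist (g z.1) (g z.2)}
  have hK : IsCompact K :=
    (isClosed_le continuous_const (by fun_prop)).isCompact
  rcases K.eq_empty_or_nonempty with hKe | hKn
  · refine ⟨1, one_pos, fun x x' _ => ?_⟩
    by_contra hcon
    have : (x, x') ∈ K := not_lt.mp hcon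
    rw [hKe] at this
    exact this
  · obtain ⟨z, hz, hmin⟩ := hK.exists_isMinOn hKn
      (f := fun z : X × X => dist (p z.1) (p z.2)) (by fun_prop)
    have hpos : 0 < dist (p z.1) (p z.2) := by
      rw [dist_pos]
      intro heq
      exact absurd (h _ _ heq) (not_lt.mpr hz)
    refine ⟨_, hpos, fun x x' hc => ?_⟩
    by_contra hcon
    have hm : (x, x') ∈ K := not_lt.mp hcon
    have := hmin hm
    simp only [mem_ofPred_eq] at this
    exact absurd hc (not_lt.mpr this)

/-- Continuity of minimum over an open and proper relation. -/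
theorem min_continuous {X T : Type*} [TopologicalSpace X] [CompactSpace X] [TopologicalSpace T]
    (S : Set (X × T)) (hS : IsClosed S)
    (hopen : ∀ U : Set (X × T), IsOpen U → IsOpen (Prod.snd '' (S ∩ U)))
    (k : X × T → ℝ) (hk : Continuous k) (hne : ∀ t, ∃ x, (x, t) ∈ S) :
    ∃ m : T → ℝ, Continuous m ∧ (∀ t, ∃ x, (x, t) ∈ S ∧ k (x, t) = m t) ∧
      (∀ x t, (x, t) ∈ S → m t ≤ k (x, t)) := by
  have hmin : ∀ t, ∃ x, (x, t) ∈ S ∧ ∀ x', (x', t) ∈ S → k (x, t) ≤ k (x', t) := by
    intro t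
    have hc : IsCompact {x : X | (x, t) ∈ S} :=
      (hS.preimage (by fun_prop : Continuous fun x : X => (x, t))).isCompact
    obtain ⟨x, hx, hm⟩ := hc.exists_isMinOn (hne t) (f := fun x => k (x, t)) (by fun_prop)
    exact ⟨x, hx, fun x' hx' => hm hx'⟩
  choose ξ hξ1 hξ2 using hmin
  refine ⟨fun t => k (ξ t, t), ?_, fun t => ⟨ξ t, hξ1 t, rfl⟩, fun x t h => hξ2 t x h⟩
  rw [OrderTopology.continuous_iff]
  intro c
  constructor
  · have h1 : (fun t => k (ξ t, t)) ⁻¹' Ioi c = (Prod.snd '' (S ∩ {z | k z ≤ c}))ᶜ := by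
      ext t
      simp only [mem_preimage, mem_Ioi, mem_compl_iff, mem_image, mem_inter_iff, mem_ofPred_eq,
        Prod.exists, exists_eq_right, not_exists, not_and, not_le]
      constructor
      · intro h x hx
        exact h.trans_le (hξ2 t x hx)
      · intro h
        exact h _ (hξ1 t)
    rw [h1, isOpen_compl_iff]
    exact isClosedMap_snd_of_compactSpace _ (hS.inter (isClosed_le hk continuous_const))
  · have h1 : (fun t => k (ξ t, t)) ⁻¹' Iio c = (Prod.snd '' (S ∩ {z | k z < c})) := by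
      ext t
      simp only [mem_preimage, mem_Iio, mem_image, mem_inter_iff, mem_ofPred_eq,
        Prod.exists, exists_eq_right]
      constructor
      · intro h
        exact ⟨_, hξ1 t, h⟩
      · rintro ⟨x, hx, h⟩
        exact (hξ2 t x hx).trans_lt h
    rw [h1]
    exact hopen _ (isOpen_lt hk continuous_const)

/-- Minimum over the fibres of an open map. -/
theorem fibre_min {X Y : Type*} [TopologicalSpace X] [CompactSpace X] [TopologicalSpace Y]
    [T2Space Y] {f : X → Y} (hf : Continuous f) (hs : Function.Surjective f) (ho : IsOpenMap f)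
    {h : X → ℝ} (hh : Continuous h) :
    ∃ m : Y → ℝ, Continuous m ∧ ∀ y, ∃ x, f x = y ∧ h x = m y := by
  obtain ⟨m, hm1, hm2, -⟩ := min_continuous (S := {z : X × Y | f z.1 = z.2})
    (isClosed_eq (by fun_prop) (by fun_prop)) (fun U hU => by
      have h1 : Prod.snd '' ({z : X × Y | f z.1 = z.2} ∩ U) =
          f '' ((fun x => (x, f x)) ⁻¹' U) := by
        ext y
        simp only [mem_image, mem_inter_iff, mem_ofPred_eq, Prod.exists, exists_eq_right,
          mem_preimage]
        constructor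
        · rintro ⟨x, h1, h2⟩
          exact ⟨x, by rw [h1]; exact h2, h1⟩
        · rintro ⟨x, h1, h2⟩
          exact ⟨x, h2, by rw [← h2]; exact h1⟩
      rw [h1]
      exact ho _ (hU.preimage (by fun_prop))) (fun z => h z.1) (by fun_prop)
      (fun y => hs y)
  exact ⟨m, hm1, fun y => hm2 y⟩

lemma HasLog.of_comp {X Y : Type*} [TopologicalSpace X] [CompactSpace X] [TopologicalSpace Y]
    [T2Space Y] {f : X → Y} (hf : Continuous f) (hs : Function.Surjective f) (ho : IsOpenMap f)
    {q : Y → Circle} (h : HasLog (fun x => q (f x))) : HasLog q := by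
  obtain ⟨h, hh, h2⟩ := h
  obtain ⟨m, hm1, hm2⟩ := fibre_min hf hs ho hh
  refine ⟨m, hm1, fun y => ?_⟩
  obtain ⟨x, rfl, h3⟩ := hm2 y
  rw [← h3]
  exact h2 x

/-- Uniform openness. -/
theorem unif_open {X Y : Type*} [PseudoMetricSpace X] [CompactSpace X] [MetricSpace Y]
    [CompactSpace Y]
    {f : X → Y} (hf : Continuous f) (ho : IsOpenMap f) {η : ℝ} (hη : 0 < η) :
    ∃ δ > 0, ∀ x y', dist (f x) y' < δ → ∃ x', f x' = y' ∧ dist x x' < η := by
  let K : Set (X × Y) := ((Prod.map id f) '' {z : X × X | dist z.1 z.2 < η})ᶜ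
  have hK : IsCompact K := by
    refine (IsOpen.isClosed_compl ?_).isCompact
    exact (IsOpenMap.id.prodMap ho) _ (isOpen_lt (by fun_prop) continuous_const)
  have hKm : ∀ x y', (x, y') ∉ K → ∃ x', f x' = y' ∧ dist x x' < η := by
    intro x y' h
    simp only [K, mem_compl_iff, not_not] at h
    obtain ⟨⟨a, b⟩, h1, h2⟩ := h
    simp only [Prod.map_apply, id_eq, Prod.mk.injEq] at h2
    obtain ⟨rfl, rfl⟩ := h2
    exact ⟨b, rfl, h1⟩
  rcases K.eq_empty_or_nonempty with hKe | hKn
  · refine ⟨1, one_pos, fun x y' _ => hKm x y' (by rw [hKe]; simp)⟩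
  · obtain ⟨z, hz, hmin⟩ := hK.exists_isMinOn hKn
      (f := fun z : X × Y => dist (f z.1) z.2) (by fun_prop)
    have hpos : 0 < dist (f z.1) z.2 := by
      rw [dist_pos]
      intro heq
      apply hz
      refine ⟨(z.1, z.1), by simpa using hη, ?_⟩
      simp only [Prod.map_apply, id_eq, heq]
    refine ⟨_, hpos, fun x y' hc => hKm x y' ?_⟩
    intro hm
    exact absurd hc (not_lt.mpr (hmin hm))

lemma const_of_exp_eq_one {Z : Type*} [TopologicalSpace Z] [PreconnectedSpace Z] {h : Z → ℝ}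
    (hh : Continuous h) (h1 : ∀ z, Circle.exp (h z) = 1) (z z' : Z) : h z = h z' := by
  have := Circle.isCoveringMap_exp.eq_of_comp_eq (g₁ := h) (g₂ := fun _ => h z) hh
    continuous_const (by ext1 w; simp [h1]) z rfl
  exact (congrFun this z').symm

/-- Degree lemma. -/
theorem degree_lemma {ρ : Circle → Circle} (hρ : Continuous ρ) :
    ∃ (n : ℤ) (g : Circle → ℝ), Continuous g ∧ ∀ w, ρ w = w ^ n * Circle.exp (g w) := by
  obtain ⟨F, ⟨hF0, hF⟩, -⟩ := Circle.isCoveringMap_exp.existsUnique_continuousMap_lifts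
    (A := ℝ) ⟨fun t => ρ (Circle.exp t), by fun_prop⟩ 0 (Complex.arg (ρ 1)) (by simp)
  have hF' : ∀ t, Circle.exp (F t) = ρ (Circle.exp t) := fun t => congrFun hF t
  have h2 : ∀ t, F (t + 2 * Real.pi) - F t = F (0 + 2 * Real.pi) - F 0 := by
    intro t
    refine const_of_exp_eq_one (h := fun t => F (t + 2 * Real.pi) - F t) (by fun_prop) ?_ t 0
    intro t
    rw [Circle.exp_sub, hF', hF', Circle.exp_add_two_pi]
    simp
  obtain ⟨n, hn⟩ : ∃ n : ℤ, F (0 + 2 * Real.pi) - F 0 = n * (2 * Real.pi) := by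
    rw [← Circle.exp_eq_one, Circle.exp_sub, hF', hF', Circle.exp_add_two_pi]
    simp
  let G : ℝ → ℝ := fun t => F t - n * t
  have hG : Function.Periodic G (2 * Real.pi) := by
    intro t
    have := h2 t
    simp only [G]
    linarith
  have hGc : Continuous G := by fun_prop
  refine ⟨n, fun w => G (Complex.arg w), ?_, ?_⟩
  · have hq : IsQuotientMap Circle.exp :=
      Circle.isCoveringMap_exp.isLocalHomeomorph.isOpenMap.isQuotientMap
        Circle.exp.continuous Circle.exp_surjective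
    rw [hq.continuous_iff]
    convert hGc using 1
    ext1 t
    simp only [Function.comp_apply]
    have h3 : Circle.exp (Complex.arg (Circle.exp t)) = Circle.exp t := Circle.exp_arg _
    rw [Circle.exp_eq_exp] at h3
    obtain ⟨m, hm⟩ := h3
    rw [hm]
    exact hG.int_mul m t
  · intro w
    have h3 : Circle.exp (Complex.arg w) = w := Circle.exp_arg w
    conv_lhs => rw [← h3, ← hF']
    conv_rhs => rw [← h3]
    simp only [G]
    rw [h3]
    have : F (Complex.arg w) = (n : ℝ) * Complex.arg w + (F (Complex.arg w) - n * Complex.arg w) := by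
      ring
    rw [this, Circle.exp_add, ← zsmul_eq_mul, Circle.exp_zsmul, h3]
    congr 2
    ring

lemma HasLog.of_zpow {Z : Type*} [TopologicalSpace Z] [PreconnectedSpace Z] {p : Z → Circle}
    (hp : Continuous p) {d : ℤ} (hd : d ≠ 0) (h : HasLog (fun z => p z ^ d)) : HasLog p := by
  rcases isEmpty_or_nonempty Z with hZ | ⟨⟨z₀⟩⟩
  · exact ⟨fun _ => 0, continuous_const, fun z => (hZ.false z).elim⟩
  obtain ⟨h, hh, h2⟩ := h
  have : NeZero d := ⟨hd⟩
  have hd' : (d : ℝ) ≠ 0 := by exact_mod_cast hd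
  let q : Z → Circle := fun z => p z * Circle.exp (-h z / d)
  have hq : Continuous q := by fun_prop
  have hq1 : ∀ z, q z ^ d = 1 := by
    intro z
    simp only [q]
    have h3 : p z ^ d = Circle.exp (h z) := h2 z
    rw [mul_zpow, h3, ← Circle.exp_zsmul, ← Circle.exp_add, zsmul_eq_mul, mul_div_cancel₀ _ hd']
    simp
  have hqc : ∀ z, q z = q z₀ := by
    intro z
    have := (Circle.isQuotientCoveringMap_zpow d).isCoveringMap.eq_of_comp_eq
      (g₁ := q) (g₂ := fun _ => q z₀) hq
      continuous_const (by ext1 w; simp [hq1]) z₀ rfl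
    exact congrFun this z
  refine ⟨fun z => Complex.arg (q z₀) + h z / d, by fun_prop, fun z => ?_⟩
  rw [Circle.exp_add, Circle.exp_arg, ← hqc z]
  simp only [q]
  rw [mul_assoc, ← Circle.exp_add]
  simp [neg_div]

end Pool.Agent.Lib.MP_8afd67_gt
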