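import Mathlib
import Pool.Agent.Lib.MP_8afd67_gt.Basic

set_option autoImplicit false

open Set Topology Filter

namespace Pool.Agent.Lib.MP_8afd67_gt

/-- Radial projection to the circle. -/
noncomputable def toC (z : ℂ) (hz : z ≠ 0) : Circle :=
  ⟨z / (‖z‖ : ℂ), mem_sphere_zero_iff_norm.2 (by
    rw [norm_div, Complex.norm_real, norm_norm,
      div_self (norm_ne_zero_iff.mpr hz)])⟩

lemma exp_pi_eq : Circle.exp Real.pi = -1 := by
  ext
  rw [Circle.coe_exp, Complex.exp_pi_mul_I, Circle.coe_neg, Circle.coe_one]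

lemma dist_toC_le (z : ℂ) (hz : z ≠ 0) (θ : Circle) {δ : ℝ} (h : ‖z - θ‖ ≤ δ) :
    dist (toC z hz) θ ≤ 2 * δ := by
  rw [circle_dist_eq]
  have h1 : ((toC z hz : Circle) : ℂ) = z / (‖z‖ : ℂ) := rfl
  rw [h1]
  have hn : ‖z‖ ≠ 0 := norm_ne_zero_iff.mpr hz
  have hn' : (‖z‖ : ℂ) ≠ 0 := by exact_mod_cast hn
  have h2 : ‖z / (‖z‖ : ℂ) - z‖ ≤ δ := by
    have h3 : z / (‖z‖ : ℂ) - z = (z / (‖z‖ : ℂ)) * ((1 - ‖z‖ : ℝ) : ℂ) := by
      push_cast
      field_simp
    rw [h3, norm_mul, norm_div, Complex.norm_real, Complex.norm_real, norm_norm, div_self hn,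
      one_mul, Real.norm_eq_abs]
    have h4 : |‖(θ : ℂ)‖ - ‖z‖| ≤ ‖(θ : ℂ) - z‖ := abs_norm_sub_norm_le _ _
    rw [Circle.norm_coe, norm_sub_rev] at h4
    linarith
  calc ‖z / (‖z‖ : ℂ) - θ‖ = ‖(z / (‖z‖ : ℂ) - z) + (z - θ)‖ := by ring_nf
    _ ≤ ‖z / (‖z‖ : ℂ) - z‖ + ‖z - θ‖ := norm_add_le _ _
    _ ≤ 2 * δ := by linarith

/-- Approximate selection for circle valued multifunctions with small values. -/
theorem circle_sel {W : Type*} [TopologicalSpace W] [NormalSpace W] [ParacompactSpace W]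
    (C : W → Set Circle) (hne : ∀ w, (C w).Nonempty) {δ : ℝ} (hδ : δ < 1)
    (hloc : ∀ w₀, ∃ c : Circle, ∀ᶠ w in 𝓝 w₀, ∀ θ ∈ C w, dist c θ ≤ δ) :
    ∃ ρ : W → Circle, Continuous ρ ∧ ∀ w, ∀ θ ∈ C w, dist (ρ w) θ ≤ 2 * δ := by
  obtain ⟨g, hg⟩ := exists_continuous_forall_mem_convex_of_local_const (X := W) (E := ℂ)
    (t := fun w => {e : ℂ | ∀ θ ∈ C w, e ∈ Metric.closedBall (θ : ℂ) δ})
    (fun w => by
      intro a ha b hb s t hs ht hst θ hθ
      exact convex_closedBall (θ : ℂ) δ (ha θ hθ) (hb θ hθ) hs ht hst)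
    (fun w₀ => by
      obtain ⟨c, hc⟩ := hloc w₀
      refine ⟨c, ?_⟩
      filter_upwards [hc] with w hw θ hθ
      have := hw θ hθ
      rw [Metric.mem_closedBall, dist_eq_norm, ← circle_dist_eq]
      exact this)
  have hg' : ∀ w, ∀ θ ∈ C w, ‖g w - (θ : ℂ)‖ ≤ δ := by
    intro w θ hθ
    have := hg w θ hθ
    rwa [Metric.mem_closedBall, dist_eq_norm] at this
  have hg0 : ∀ w, g w ≠ 0 := by
    intro w h0
    obtain ⟨θ, hθ⟩ := hne w
    have := hg' w θ hθ
    rw [h0, zero_sub, norm_neg, Circle.norm_coe] at this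
    linarith
  refine ⟨fun w => toC (g w) (hg0 w), ?_, fun w θ hθ => dist_toC_le _ _ _ (hg' w θ hθ)⟩
  have h1 : Continuous fun w => g w / (‖g w‖ : ℂ) := by
    refine g.continuous.div (by fun_prop) (fun w => ?_)
    exact_mod_cast norm_ne_zero_iff.mpr (hg0 w)
  exact Continuous.subtype_mk h1 _

lemma exists_arg_control {δ' : ℝ} (h : 0 < δ') :
    ∃ δ > 0, δ < 1 / 2 ∧ ∀ w w' : Circle, dist w w' ≤ 2 * δ → |Complex.arg (w / w' : Circle)| < δ' := by
  have hc : ContinuousAt (fun w : Circle => |Complex.arg w|) 1 := by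
    refine ContinuousAt.abs ?_
    refine ContinuousAt.comp (g := Complex.arg) (f := fun w : Circle => (w : ℂ)) ?_ (by fun_prop)
    simpa using Complex.continuousAt_arg (x := 1) (by simp)
  have h1 : ∀ᶠ w : Circle in 𝓝 (1 : Circle), |Complex.arg (w : ℂ)| < δ' :=
    hc.eventually (gt_mem_nhds (by simpa using h))
  obtain ⟨ε, hε, h2⟩ := Metric.eventually_nhds_iff.mp h1
  refine ⟨min (ε / 3) (1 / 4), by positivity, lt_of_le_of_lt (min_le_right _ _) (by norm_num),
    fun w w' hw => h2 ?_⟩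
  have h3 : dist (w / w') 1 = dist w w' := by
    rw [circle_dist_eq, circle_dist_eq]
    have : (w : ℂ) - w' = ((w / w' : Circle) - ((1 : Circle) : ℂ)) * w' := by
      rw [sub_mul, ← Circle.coe_mul, ← Circle.coe_mul]
      simp
    rw [this, norm_mul, Circle.norm_coe, mul_one]
  rw [h3]
  have := min_le_left (ε / 3) (1 / 4)
  linarith

/-- Continuity of the argument off -1. -/
lemma continuous_arg_comp {Z : Type*} [TopologicalSpace Z] {q : Z → Circle} (hq : Continuous q)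
    (h : ∀ z, q z ≠ -1) : Continuous fun z => Complex.arg (q z) := by
  rw [continuous_iff_continuousAt]
  intro z
  refine ContinuousAt.comp (g := Complex.arg) (f := fun z => (q z : ℂ)) ?_ (by fun_prop)
  apply Complex.continuousAt_arg
  rw [Complex.mem_slitPlane_iff_arg]
  refine ⟨fun h1 => h z ?_, Circle.coe_ne_zero _⟩
  rw [← Circle.exp_arg (q z), h1, exp_pi_eq]

/-- Factorisation of a circle valued map through a fine map, up to a small exponential. -/
theorem factor {δ' δ : ℝ} (hδ' : δ' < 1) (hδ0 : 0 < δ) (hδ1 : δ < 1 / 2)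
    (hδ : ∀ w w' : Circle, dist w w' ≤ 2 * δ → |Complex.arg (w / w' : Circle)| < δ')
    {X : Type*} [TopologicalSpace X] [CompactSpace X] {p φ : X → Circle} (hp : Continuous p)
    (hps : Function.Surjective p) (hφ : Continuous φ)
    (h : ∀ x x', p x = p x' → dist (φ x) (φ x') < δ) :
    ∃ (d : ℤ) (h' : X → ℝ), Continuous h' ∧ (∀ x, φ x = p x ^ d * Circle.exp (h' x)) ∧
      ∀ x x', p x = p x' → |h' x - h' x'| < 2 * δ' := by
  obtain ⟨r, hr, hr2⟩ := exists_dist hp hφ h
  obtain ⟨ρ, hρ, hρ2⟩ := circle_sel (W := Circle) (fun w => φ '' (p ⁻¹' {w})) (fun w => by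
      obtain ⟨x, hx⟩ := hps w
      exact ⟨φ x, x, hx, rfl⟩) (δ := δ) (by linarith) (fun w₀ => by
      obtain ⟨x₀, hx₀⟩ := hps w₀
      refine ⟨φ x₀, ?_⟩
      filter_upwards [Metric.ball_mem_nhds w₀ hr] with w hw
      rintro θ ⟨x, hx, rfl⟩
      refine (hr2 _ _ ?_).le
      rw [hx₀, show p x = w from hx, dist_comm]
      exact hw)
  have hρ3 : ∀ x, dist (ρ (p x)) (φ x) ≤ 2 * δ := fun x => hρ2 _ _ ⟨x, rfl, rfl⟩
  obtain ⟨d, g, hg, hg2⟩ := degree_lemma hρ
  have harg : ∀ x, |Complex.arg (φ x / ρ (p x) : Circle)| < δ' := fun x =>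
    hδ _ _ (by rw [dist_comm]; exact hρ3 x)
  refine ⟨d, fun x => g (p x) + Complex.arg (φ x / ρ (p x) : Circle), ?_, ?_, ?_⟩
  · refine Continuous.add (by fun_prop) (continuous_arg_comp (by fun_prop) ?_)
    intro x hx
    have h1 := harg x
    rw [hx] at h1
    have h2 : Complex.arg ((-1 : Circle) : ℂ) = Real.pi := by
      rw [← exp_pi_eq, Circle.arg_exp (by linarith [Real.pi_pos]) le_rfl]
    rw [h2, abs_of_pos Real.pi_pos] at h1
    linarith [Real.pi_gt_three]
  · intro x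
    rw [Circle.exp_add, Circle.exp_arg, ← mul_assoc, ← hg2]
    simp
  · intro x x' hxx
    have h1 := harg x
    have h2 := harg x'
    rw [abs_lt] at *
    constructor <;> simp only [hxx] at * <;> linarith [h1.1, h1.2, h2.1, h2.2]

/-- A map without a given value has a logarithm injective in the value. -/
lemma log_of_not_surjective {Z : Type*} [TopologicalSpace Z] {q : Z → Circle} (hq : Continuous q)
    (h : ¬ Function.Surjective q) : ∃ l : Z → ℝ, Continuous l ∧ ∀ z z', l z = l z' → q z = q z' := by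
  simp only [Function.Surjective, not_forall, not_exists] at h
  obtain ⟨c, hc⟩ := h
  refine ⟨fun z => Complex.arg (-(q z / c) : Circle), continuous_arg_comp (by fun_prop) ?_, ?_⟩
  · intro z hz
    apply hc z
    have : q z / c = 1 := neg_injective hz
    rwa [div_eq_one] at this
  · intro z z' hzz
    have h1 := Circle.injective_arg hzz
    have h2 := neg_injective h1
    simpa using h2

end Pool.Agent.Lib.MP_8afd67_gt
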