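import Mathlib
import Pool.Agent.Lib.MP_8afd67_gt.Factor

set_option autoImplicit false

open Set Topology Filter

namespace Pool.Agent.Lib.MP_8afd67_gt

/-- A space with an action of the integers whose orbits are the fibres of `π`, together with an
increasing coordinate. -/
structure LongSpace (Z Y : Type) [TopologicalSpace Z] [TopologicalSpace Y] where
  π : Z → Y
  π_cont : Continuous π
  π_open : IsOpenMap π
  π_surj : Function.Surjective π
  σ : ℤ → Z → Z
  σ_cont : ∀ k, Continuous (σ k)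
  σ_zero : ∀ z, σ 0 z = z
  σ_add : ∀ m n z, σ (m + n) z = σ m (σ n z)
  π_σ : ∀ k z, π (σ k z) = π z
  orbit : ∀ z z', π z = π z' → ∃ k, z' = σ k z
  u : Z → ℝ
  u_cont : Continuous u
  u_lt : ∀ z, u z < u (σ 1 z)
  K : ℤ
  c : ℝ
  c_pos : 0 < c
  u_K : ∀ z, u (σ K z) = u z + c
  compact : ∀ a b, IsCompact {z | a ≤ u z ∧ u z ≤ b}

namespace LongSpace

variable {Z Y : Type} [TopologicalSpace Z] [TopologicalSpace Y] (D : LongSpace Z Y)

lemma mono (z : Z) : StrictMono fun k => D.u (D.σ k z) := by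
  refine strictMono_int_of_lt_succ fun n => ?_
  have h := D.u_lt (D.σ n z)
  rw [← D.σ_add] at h
  rw [add_comm n 1]
  exact h

lemma mono_le (z : Z) {m n : ℤ} (h : m ≤ n) : D.u (D.σ m z) ≤ D.u (D.σ n z) :=
  (D.mono z).monotone h

lemma K_pos [Nonempty Z] : 0 < D.K := by
  obtain ⟨z⟩ : Nonempty Z := inferInstance
  have h := D.u_K z
  have h1 := (D.mono z).lt_iff_lt (a := 0) (b := D.K)
  rw [← h1]
  simp only [D.σ_zero, h]
  linarith [D.c_pos]

lemma u_mul (z : Z) (j : ℤ) : D.u (D.σ (j * D.K) z) = D.u z + j * D.c := by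
  induction j using Int.induction_on with
  | zero => simp [D.σ_zero]
  | succ i ih =>
    have h1 : ((i : ℤ) + 1) * D.K = D.K + i * D.K := by ring
    rw [h1, D.σ_add, D.u_K, ih]
    push_cast
    ring
  | pred i ih =>
    have h1 : (-(i : ℤ)) * D.K = D.K + (-(i : ℤ) - 1) * D.K := by ring
    have h2 : D.u (D.σ (-(i : ℤ) * D.K) z) = D.u (D.σ ((-(i : ℤ) - 1) * D.K) z) + D.c := by
      rw [h1, D.σ_add, D.u_K]
    rw [ih] at h2
    push_cast at h2 ⊢
    linarith

lemma exists_mul (z : Z) (b : ℝ) : ∃ j : ℤ, b ≤ D.u (D.σ (j * D.K) z) ∧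
    D.u (D.σ (j * D.K) z) < b + D.c := by
  obtain ⟨j, hj, -⟩ := existsUnique_add_zsmul_mem_Ico D.c_pos (D.u z) b
  refine ⟨j, ?_⟩
  rw [D.u_mul]
  simpa using hj

/-- Fundamental domain. -/
lemma exists_fund [Nonempty Z] (y : Y) (q : ℝ) :
    ∃ z, D.π z = y ∧ q ≤ D.u z ∧ D.u (D.σ (-1) z) ≤ q := by
  obtain ⟨z, rfl⟩ := D.π_surj y
  have hK := D.K_pos
  obtain ⟨k, hk, hk2⟩ := Int.exists_least_of_bdd (P := fun k => q ≤ D.u (D.σ k z)) (by
    obtain ⟨j, hj1, hj2⟩ := D.exists_mul z (q - D.c)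
    refine ⟨j * D.K, fun m hm => ?_⟩
    by_contra hcon
    have := D.mono_le z (le_of_lt (not_le.mp hcon))
    linarith) (by
    obtain ⟨j, hj1, hj2⟩ := D.exists_mul z q
    exact ⟨_, hj1⟩)
  refine ⟨D.σ k z, D.π_σ _ _, hk, ?_⟩
  rw [← D.σ_add]
  by_contra hcon
  have := hk2 (-1 + k) (le_of_lt (not_le.mp hcon))
  omega

/-- Descending a locally supported function to the quotient. -/
theorem descend [Nonempty Z] {q : ℝ} {e : Z → Circle} (he : Continuous e)
    (h1 : ∀ z, D.u z ≤ q → e z = 1) (h2 : ∀ z, q ≤ D.u (D.σ (-1) z) → e z = 1) :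
    ∃ G : Y → Circle, Continuous G ∧
      ∀ z, q ≤ D.u z → D.u (D.σ (-1) z) ≤ q → G (D.π z) = e z := by
  let Gt : Z → Circle := fun z => ∏ᶠ k : ℤ, e (D.σ k z)
  have hGt : Continuous Gt := by
    refine continuous_finprod (fun k => he.comp (D.σ_cont k)) ?_
    intro z₀
    refine ⟨{z | |D.u z - D.u z₀| < 1}, ?_, ?_⟩
    · have : Continuous fun z => |D.u z - D.u z₀| := by
        have := D.u_cont
        fun_prop
      exact (isOpen_lt this continuous_const).mem_nhds (by simp)
    · -- only finitely many k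
      have hc := D.c_pos
      obtain ⟨j, hj⟩ := exists_nat_gt ((|q| + |D.u z₀| + 1) / D.c)
      rw [div_lt_iff₀ hc] at hj
      refine (Set.finite_Icc (-(j * D.K)) (j * D.K)).subset ?_
      rintro k ⟨z, hz, hz2⟩
      rw [Function.mem_mulSupport] at hz
      have hz2' : |D.u z - D.u z₀| < 1 := hz2
      rw [abs_lt] at hz2'
      have hq1 := neg_abs_le q
      have hq2 := le_abs_self q
      have hu1 := neg_abs_le (D.u z₀)
      have hu2 := le_abs_self (D.u z₀)
      constructor
      · by_contra hcon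
        push Not at hcon
        apply hz
        apply h1
        have h3 := D.mono_le z hcon.le
        have h4 := D.u_mul z (-(j : ℤ))
        rw [neg_mul] at h4
        rw [h4] at h3
        push_cast at h3
        linarith
      · by_contra hcon
        push Not at hcon
        apply hz
        apply h2
        rw [← D.σ_add]
        have h3 := D.mono_le z (show (j : ℤ) * D.K ≤ -1 + k by omega)
        have h4 := D.u_mul z (j : ℤ)
        rw [h4] at h3
        push_cast at h3
        linarith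
  have hinv : ∀ m z, Gt (D.σ m z) = Gt z := by
    intro m z
    simp only [Gt]
    have h3 : ∀ k : ℤ, e (D.σ k (D.σ m z)) = (fun i => e (D.σ i z)) (Equiv.addRight m k) := by
      intro k
      simp only [Equiv.coe_addRight, D.σ_add]
    rw [finprod_congr h3]
    exact finprod_comp_equiv (Equiv.addRight m) (f := fun i => e (D.σ i z))
  choose s hs using D.π_surj
  have hG : ∀ z, Gt (s (D.π z)) = Gt z := by
    intro z
    obtain ⟨k, hk⟩ := D.orbit z (s (D.π z)) (hs _).symm
    rw [hk, hinv]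
  have hq : IsQuotientMap D.π := D.π_open.isQuotientMap D.π_cont D.π_surj
  refine ⟨fun y => Gt (s y), ?_, ?_⟩
  · rw [hq.continuous_iff]
    have : (fun y => Gt (s y)) ∘ D.π = Gt := funext hG
    rw [this]
    exact hGt
  · intro z hz1 hz2
    simp only
    rw [hG]
    simp only [Gt]
    rw [finprod_eq_single _ 0, D.σ_zero]
    intro k hk
    rcases lt_or_gt_of_ne hk with hk | hk
    · apply h1
      exact (D.mono_le z (show k ≤ -1 by omega)).trans hz2
    · apply h2
      rw [← D.σ_add]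
      have h3 := D.mono_le z (show 0 ≤ -1 + k by omega)
      rw [D.σ_zero] at h3
      exact hz1.trans h3

end LongSpace

lemma circle_exp_frac_eq {L a b : ℝ} (hL : 0 < L) (ha0 : 0 ≤ a) (haL : a ≤ L) (hb0 : 0 ≤ b)
    (hbL : b ≤ L) (h : Circle.exp (2 * Real.pi * a / L) = Circle.exp (2 * Real.pi * b / L)) :
    a = b ∨ (a = 0 ∧ b = L) ∨ (a = L ∧ b = 0) := by
  rw [Circle.exp_eq_exp] at h
  obtain ⟨m, hm⟩ := h
  have hpi := Real.pi_pos
  have h1 : a = b + m * L := by
    field_simp at hm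
    linarith
  have h2 : (m : ℝ) * L ≤ 1 * L := by linarith
  have h3 : (-1 : ℝ) * L ≤ m * L := by linarith
  have h4 : (m : ℝ) ≤ 1 := le_of_mul_le_mul_right h2 hL
  have h5 : (-1 : ℝ) ≤ m := le_of_mul_le_mul_right h3 hL
  have h6 : m ≤ 1 := by exact_mod_cast h4
  have h7 : -1 ≤ m := by exact_mod_cast h5
  have h8 : m = -1 ∨ m = 0 ∨ m = 1 := by omega
  rcases h8 with rfl | rfl | rfl
  · push_cast at h1
    right; left
    constructor <;> linarith
  · push_cast at h1
    left; linarith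
  · push_cast at h1
    right; right
    constructor <;> linarith

/-- The main gluing lemma. -/
theorem lemma_A {Z Y : Type} [TopologicalSpace Z] [MetricSpace Y] [Nonempty Z] (D : LongSpace Z Y)
    {v : Z → ℝ} (hv : Continuous v) {η κ ε : ℝ} (hη : 0 < η) (hκ0 : 0 ≤ κ) (hκ : 2 * κ < η)
    (hvη : ∀ z, v z + η ≤ v (D.σ 1 z))
    (h1 : ∀ z z', D.u z = D.u z' → |v z - v z'| ≤ κ)
    (h2 : ∀ z z', D.u z = D.u z' → |v (D.σ 1 z) - v (D.σ 1 z')| ≤ κ)
    (h3 : ∀ z z', |v z - v z'| ≤ κ → dist (D.π z) (D.π z') < ε)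
    (h4 : ∀ z z', D.u z = D.u z' → dist (D.π z) (D.π z') < ε) :
    ∃ G : Y → Circle, Continuous G ∧ ∀ y y', G y = G y' → dist y y' < 3 * ε := by
  have hcp := D.c_pos
  have hu := D.u_cont
  have hσ := D.σ_cont
  have hστ : ∀ z, D.σ 1 (D.σ (-1) z) = z := by
    intro z
    rw [← D.σ_add]
    simp [D.σ_zero]
  -- growth of v
  have hvk : ∀ (k : ℕ) z, v z ≤ v (D.σ k z) := by
    intro k z
    induction k with
    | zero => simp [D.σ_zero]
    | succ n ih =>
      have h5 : ((n + 1 : ℕ) : ℤ) = 1 + n := by push_cast; ring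
      rw [h5, D.σ_add]
      have := hvη (D.σ n z)
      linarith
  have hvk' : ∀ (k : ℤ), 0 ≤ k → ∀ z, v z ≤ v (D.σ k z) := by
    intro k hk z
    obtain ⟨n, rfl⟩ := Int.eq_ofNat_of_zero_le hk
    exact hvk n z
  have hK := D.K_pos
  -- step 1
  obtain ⟨zz⟩ : Nonempty Z := inferInstance
  obtain ⟨j₀, hj1, hj2⟩ := D.exists_mul zz (-D.c)
  obtain ⟨z₀, hz₀, hz₀m⟩ := (D.compact (-D.c) 0).exists_isMaxOn
    ⟨D.σ (j₀ * D.K) zz, hj1, by linarith⟩ (f := fun z => v (D.σ 1 z)) (by
      have := hσ 1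
      fun_prop)
  have hz₀m' : ∀ z, D.u z ≤ 0 → v (D.σ 1 z) ≤ v (D.σ 1 z₀) := by
    intro z hz
    obtain ⟨j, hj1, hj2⟩ := D.exists_mul z (-D.c)
    by_cases hj : 0 ≤ j
    · have e1 : v (D.σ 1 (D.σ (j * D.K) z)) ≤ v (D.σ 1 z₀) := hz₀m ⟨hj1, by linarith⟩
      have e2 : D.σ 1 (D.σ (j * D.K) z) = D.σ (j * D.K) (D.σ 1 z) := by
        rw [← D.σ_add, ← D.σ_add, add_comm]
      rw [e2] at e1
      exact (hvk' _ (mul_nonneg hj hK.le) _).trans e1
    · have e3 := D.u_mul z j
      have e4 : (j : ℝ) ≤ -1 := by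
        have : j ≤ -1 := by omega
        exact_mod_cast this
      apply hz₀m
      refine ⟨?_, hz⟩
      nlinarith
  -- step 2
  obtain ⟨xq, hxq, hxqm⟩ := (D.compact (D.u z₀) (D.u z₀ + D.c)).exists_isMinOn
    ⟨z₀, le_rfl, by linarith⟩ (f := v) hv.continuousOn
  have F1 : ∀ z, D.u z₀ ≤ D.u z → v xq ≤ v z := by
    intro z hz
    obtain ⟨j, hj1, hj2⟩ := D.exists_mul z (D.u z₀)
    by_cases hj : j ≤ 0
    · have e1 : v xq ≤ v (D.σ (j * D.K) z) := hxqm ⟨hj1, hj2.le⟩
      have e2 := hvk' (-(j * D.K)) (by nlinarith) (D.σ (j * D.K) z)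
      rw [← D.σ_add, neg_add_cancel, D.σ_zero] at e2
      exact e1.trans e2
    · have e3 := D.u_mul z j
      have e4 : (1 : ℝ) ≤ j := by
        have : 1 ≤ j := by omega
        exact_mod_cast this
      apply hxqm
      refine ⟨hz, ?_⟩
      nlinarith
  -- step 3
  obtain ⟨xp, hxp, hxpm⟩ := (D.compact (D.u z₀) (D.u xq)).exists_isMaxOn
    ⟨z₀, le_rfl, hxq.1⟩ (f := fun z => v (D.σ 1 z)) (by
      have := hσ 1
      fun_prop)
  have F3 : ∀ z, D.u z ≤ D.u xq → v (D.σ 1 z) ≤ v (D.σ 1 xp) := by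
    intro z hz
    by_cases hz0 : D.u z₀ ≤ D.u z
    · exact hxpm ⟨hz0, hz⟩
    · have e1 := hz₀m' z (by linarith [hz₀.2])
      have e2 : v (D.σ 1 z₀) ≤ v (D.σ 1 xp) := hxpm ⟨le_rfl, hxq.1⟩
      exact e1.trans e2
  have F2 : ∀ z, D.u z = D.u xq → v z ≤ v xq + κ := by
    intro z hz
    have := abs_le.mp (h1 z xq hz)
    linarith [this.2]
  have F4 : ∀ z, D.u z = D.u xp → v (D.σ 1 xp) - κ ≤ v (D.σ 1 z) := by
    intro z hz
    have := abs_le.mp (h2 z xp hz)
    linarith [this.1]
  have F5 : v xq + η ≤ v (D.σ 1 xp) := (hvη xq).trans (F3 xq le_rfl)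
  have F6 : ∀ z, D.u z = D.u xq → D.u (D.σ (-1) z) < D.u xp := by
    intro z hz
    by_contra hcon
    push Not at hcon
    have e1 := F1 (D.σ (-1) z) (hxp.1.trans hcon)
    have e2 := hvη (D.σ (-1) z)
    rw [hστ] at e2
    have e3 := F2 z hz
    linarith
  -- the function ω
  obtain ⟨ρ, hρ⟩ : ∃ ρ, ρ = v xq := ⟨_, rfl⟩
  obtain ⟨γ, hγ⟩ : ∃ γ, γ = v (D.σ 1 xp) := ⟨_, rfl⟩
  obtain ⟨q, hq⟩ : ∃ q, q = D.u xq := ⟨_, rfl⟩
  obtain ⟨p, hp⟩ : ∃ p, p = D.u xp := ⟨_, rfl⟩
  have hpq : p ≤ q := by rw [hp, hq]; exact hxp.2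
  have hp0q : D.u z₀ ≤ q := by rw [hq]; exact hxq.1
  rw [← hρ] at F1 F2 F5
  rw [← hγ] at F3 F4 F5
  rw [← hq] at F2 F3 F6
  rw [← hp] at F4 F6
  have hγρ : 2 * κ < γ - ρ := by linarith
  classical
  let ω : Z → ℝ := fun z => if D.u z ≤ q then 0 else
    if D.u (D.σ (-1) z) ≤ p then min (max (v z) (ρ + κ)) (γ - κ) - (ρ + κ)
    else (γ - ρ - 2 * κ) + (min (D.u (D.σ (-1) z)) q - p)
  have hcl : ∀ z, D.u (D.σ (-1) z) = p → min (max (v z) (ρ + κ)) (γ - κ) = γ - κ := by
    intro z hz
    have e1 := F4 (D.σ (-1) z) hz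
    rw [hστ] at e1
    rw [min_eq_right]
    exact e1.trans (le_max_left _ _)
  have hωc : Continuous ω := by
    have hσ1 := hσ (-1)
    refine Continuous.if_le (f := D.u) (g := fun _ => q) continuous_const ?_ hu
      continuous_const ?_
    · refine Continuous.if_le (f := fun z => D.u (D.σ (-1) z)) (g := fun _ => p) ?_ ?_ ?_ ?_ ?_
      · fun_prop
      · fun_prop
      · fun_prop
      · fun_prop
      · intro z hz
        rw [hcl z hz, hz, min_eq_left hpq]
        ring
    · intro z hz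
      rw [if_pos (F6 z hz).le]
      have e1 := F2 z hz
      rw [max_eq_right e1, min_eq_left (by linarith)]
      ring
  -- values of ω
  have W1 : ∀ z, D.u z ≤ q → ω z = 0 := fun z hz => if_pos hz
  have hlt1 : ∀ z, D.u (D.σ (-1) z) < D.u z := by
    intro z
    have := D.u_lt (D.σ (-1) z)
    rwa [hστ] at this
  have WA : ∀ z, q ≤ D.u z → D.u (D.σ (-1) z) ≤ p →
      ω z = min (max (v z) (ρ + κ)) (γ - κ) - (ρ + κ) := by
    intro z hz1 hz2
    by_cases hz : D.u z ≤ q
    · rw [W1 z hz]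
      have e1 := F2 z (le_antisymm hz hz1)
      rw [max_eq_right e1, min_eq_left (by linarith)]
      ring
    · simp only [ω]
      rw [if_neg hz, if_pos hz2]
  have WB : ∀ z, q ≤ D.u z → p ≤ D.u (D.σ (-1) z) →
      ω z = (γ - ρ - 2 * κ) + (min (D.u (D.σ (-1) z)) q - p) := by
    intro z hz1 hz2
    have hz : ¬ D.u z ≤ q := by
      intro hz
      have := F6 z (le_antisymm hz hz1)
      linarith
    by_cases hz3 : D.u (D.σ (-1) z) ≤ p
    · have hz4 := le_antisymm hz3 hz2
      rw [WA z hz1 hz3, hcl z hz4, hz4, min_eq_left hpq]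
      ring
    · simp only [ω]
      rw [if_neg hz, if_neg hz3]
  have hL : 0 < (γ - ρ - 2 * κ) + (q - p) := by linarith
  obtain ⟨L, hLdef⟩ : ∃ L, L = (γ - ρ - 2 * κ) + (q - p) := ⟨_, rfl⟩
  rw [← hLdef] at hL
  have W2 : ∀ z, q ≤ D.u (D.σ (-1) z) → ω z = L := by
    intro z hz
    rw [WB z (hz.trans (hlt1 z).le) (hpq.trans hz), min_eq_right hz, hLdef]
  have Wrange : ∀ z, q ≤ D.u z → D.u (D.σ (-1) z) ≤ q → 0 ≤ ω z ∧ ω z ≤ L := by
    intro z hz1 hz2
    rcases le_total (D.u (D.σ (-1) z)) p with h5 | h5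
    · rw [WA z hz1 h5]
      constructor
      · have : ρ + κ ≤ min (max (v z) (ρ + κ)) (γ - κ) := le_min (le_max_right _ _) (by linarith)
        linarith
      · have : min (max (v z) (ρ + κ)) (γ - κ) ≤ γ - κ := min_le_right _ _
        linarith
    · rw [WB z hz1 h5, min_eq_left hz2]
      constructor <;> linarith
  obtain ⟨G, hG, hG2⟩ := D.descend (q := q) (e := fun z => Circle.exp (2 * Real.pi * ω z / L))
    (by fun_prop) (fun z hz => by simp only [W1 z hz]; simp) (fun z hz => by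
      simp only [W2 z hz]
      rw [mul_div_assoc, div_self hL.ne', mul_one, Circle.exp_two_pi])
  refine ⟨G, hG, ?_⟩
  -- comparison on the fundamental domain
  have hve : ∀ z, q ≤ D.u z → D.u (D.σ (-1) z) ≤ q → ρ ≤ v z ∧ v z ≤ γ := by
    intro z hz1 hz2
    refine ⟨F1 z (hp0q.trans hz1), ?_⟩
    have := F3 _ hz2
    rwa [hστ] at this
  have hε : 0 < ε := lt_of_le_of_lt dist_nonneg (h4 z₀ z₀ rfl)
  -- equal ω
  have hA : ∀ z z', q ≤ D.u z → D.u (D.σ (-1) z) ≤ q → q ≤ D.u z' → D.u (D.σ (-1) z') ≤ q →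
      ω z = ω z' → dist (D.π z) (D.π z') < ε := by
    have hAB : ∀ z z', q ≤ D.u z → D.u (D.σ (-1) z) ≤ q → q ≤ D.u z' → D.u (D.σ (-1) z') ≤ q →
        ω z = ω z' → D.u (D.σ (-1) z) ≤ p → p ≤ D.u (D.σ (-1) z') →
        dist (D.π z) (D.π z') < ε := by
      intro z z' a1 a2 b1 b2 hω c1 c2
      rw [WA z a1 c1, WB z' b1 c2, min_eq_left b2] at hω
      have e1 : γ - κ ≤ v z := by
        by_contra hcon
        push Not at hcon
        have : min (max (v z) (ρ + κ)) (γ - κ) < γ - κ :=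
          lt_of_le_of_lt (min_le_left _ _) (max_lt hcon (by linarith))
        linarith
      have e2 : D.u (D.σ (-1) z') = p := by
        have : min (max (v z) (ρ + κ)) (γ - κ) ≤ γ - κ := min_le_right _ _
        linarith
      have e3 := F4 _ e2
      rw [hστ] at e3
      have e4 := hve z a1 a2
      have e5 := hve z' b1 b2
      apply h3
      rw [abs_le]
      constructor <;> linarith
    intro z z' a1 a2 b1 b2 hω
    rcases le_total (D.u (D.σ (-1) z)) p with c1 | c1
    · rcases le_total (D.u (D.σ (-1) z')) p with c2 | c2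
      · rw [WA z a1 c1, WA z' b1 c2] at hω
        have hω' : min (max (v z) (ρ + κ)) (γ - κ) = min (max (v z') (ρ + κ)) (γ - κ) := by
          linarith
        have e4 := hve z a1 a2
        have e5 := hve z' b1 b2
        apply h3
        rw [abs_le]
        rcases le_total (v z) (ρ + κ) with d1 | d1 <;> rcases le_total (v z') (ρ + κ) with d2 | d2
        · constructor <;> linarith
        · rw [max_eq_right d1, max_eq_left d2, min_eq_left (by linarith)] at hω'
          rcases le_total (v z') (γ - κ) with d3 | d3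
          · rw [min_eq_left d3] at hω'
            constructor <;> linarith
          · rw [min_eq_right d3] at hω'
            linarith
        · rw [max_eq_left d1, max_eq_right d2, min_eq_left (show ρ + κ ≤ γ - κ by linarith)] at hω'
          rcases le_total (v z) (γ - κ) with d3 | d3
          · rw [min_eq_left d3] at hω'
            constructor <;> linarith
          · rw [min_eq_right d3] at hω'
            linarith
        · rw [max_eq_left d1, max_eq_left d2] at hω'
          rcases le_total (v z) (γ - κ) with d3 | d3 <;> rcases le_total (v z') (γ - κ) with d4 | d4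
          · rw [min_eq_left d3, min_eq_left d4] at hω'
            constructor <;> linarith
          · rw [min_eq_left d3, min_eq_right d4] at hω'
            constructor <;> linarith
          · rw [min_eq_right d3, min_eq_left d4] at hω'
            constructor <;> linarith
          · constructor <;> linarith
      · exact hAB z z' a1 a2 b1 b2 hω c1 c2
    · rcases le_total (D.u (D.σ (-1) z')) p with c2 | c2
      · rw [dist_comm]
        exact hAB z' z b1 b2 a1 a2 hω.symm c2 c1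
      · rw [WB z a1 c1, WB z' b1 c2, min_eq_left a2, min_eq_left b2] at hω
        have e1 : D.u (D.σ (-1) z) = D.u (D.σ (-1) z') := by linarith
        have e2 := h4 _ _ e1
        rwa [D.π_σ, D.π_σ] at e2
  -- ω = 0 and ω = L
  have hB : ∀ z z', q ≤ D.u z → D.u (D.σ (-1) z) ≤ q → q ≤ D.u z' → D.u (D.σ (-1) z') ≤ q →
      ω z = 0 → ω z' = L → dist (D.π z) (D.π z') < 3 * ε := by
    intro z z' a1 a2 b1 b2 hω hω'
    have e4 := hve z a1 a2
    have e5 := hve z' b1 b2
    have g1 : dist (D.π z) (D.π xq) < ε := by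
      apply h3
      rcases le_total (D.u (D.σ (-1) z)) p with c1 | c1
      · rw [WA z a1 c1] at hω
        have e1 : v z ≤ ρ + κ := by
          by_contra hcon
          push Not at hcon
          have : ρ + κ < min (max (v z) (ρ + κ)) (γ - κ) :=
            lt_min (lt_of_lt_of_le hcon (le_max_left _ _)) (by linarith)
          linarith
        rw [abs_le]
        constructor <;> linarith
      · rw [WB z a1 c1, min_eq_left a2] at hω
        linarith
    have g2 : dist (D.π z') (D.π xq) < 2 * ε := by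
      rcases le_total (D.u (D.σ (-1) z')) p with c1 | c1
      · rw [WA z' b1 c1] at hω'
        have e6 : min (max (v z') (ρ + κ)) (γ - κ) ≤ γ - κ := min_le_right _ _
        have e7 : p = q := by linarith
        have e1 : γ - κ ≤ v z' := by
          by_contra hcon
          push Not at hcon
          have : min (max (v z') (ρ + κ)) (γ - κ) < γ - κ :=
            lt_of_le_of_lt (min_le_left _ _) (max_lt hcon (by linarith))
          linarith
        have e8 : dist (D.π z') (D.π (D.σ 1 xp)) < ε := by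
          apply h3
          rw [← hγ, abs_le]
          constructor <;> linarith
        rw [D.π_σ] at e8
        have e9 : dist (D.π xp) (D.π xq) < ε := h4 _ _ (by rw [← hp, ← hq, e7])
        linarith [dist_triangle (D.π z') (D.π xp) (D.π xq)]
      · rw [WB z' b1 c1, min_eq_left b2] at hω'
        have e1 : D.u (D.σ (-1) z') = D.u xq := by rw [← hq]; linarith
        have e2 := h4 _ _ e1
        rw [D.π_σ] at e2
        linarith
    linarith [dist_triangle_right (D.π z) (D.π z') (D.π xq)]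
  intro y y' hyy
  obtain ⟨z, rfl, a1, a2⟩ := D.exists_fund y q
  obtain ⟨z', rfl, b1, b2⟩ := D.exists_fund y' q
  rw [hG2 z a1 a2, hG2 z' b1 b2] at hyy
  have r1 := Wrange z a1 a2
  have r2 := Wrange z' b1 b2
  rcases circle_exp_frac_eq hL r1.1 r1.2 r2.1 r2.2 hyy with h5 | ⟨h5, h6⟩ | ⟨h5, h6⟩
  · linarith [hA z z' a1 a2 b1 b2 h5]
  · exact hB z z' a1 a2 b1 b2 h5 h6
  · rw [dist_comm]
    exact hB z' z b1 b2 a1 a2 h6 h5

end Pool.Agent.Lib.MP_8afd67_gt
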