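import Mathlib
import Pool.Agent.Lib.MP_8afd67_gt.LemmaA

set_option autoImplicit false

open Set Topology Filter

namespace Pool.Agent.Lib.MP_8afd67_gt

/-- The image of the infinite cyclic cover of `X` in `Y × ℝ`. -/
def ZZ {X Y : Type} (f : X → Y) (p : X → Circle) (a : ℕ) (h : X → ℝ) : Set (Y × ℝ) :=
  {z | ∃ x s, f x = z.1 ∧ Circle.exp s = p x ∧ a * s + h x = z.2}

lemma mem_ZZ {X Y : Type} {f : X → Y} {p : X → Circle} {a : ℕ} {h : X → ℝ} {x : X} {s t : ℝ}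
    (h1 : Circle.exp s = p x) (h2 : a * s + h x = t) : (f x, t) ∈ ZZ f p a h :=
  ⟨x, s, rfl, h1, h2⟩

lemma mem_ZZ_iff {X Y : Type} {f : X → Y} {p : X → Circle} {a : ℕ} (ha : 0 < a) {h : X → ℝ}
    {z : Y × ℝ} : z ∈ ZZ f p a h ↔ ∃ x, f x = z.1 ∧ Circle.exp ((z.2 - h x) / a) = p x := by
  have ha' : (a : ℝ) ≠ 0 := by positivity
  constructor
  · rintro ⟨x, s, h1, h2, h3⟩
    refine ⟨x, h1, ?_⟩
    rw [← h3, ← h2]
    congr 1
    field_simp
    ring
  · rintro ⟨x, h1, h2⟩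
    refine ⟨x, _, h1, h2, ?_⟩
    field_simp
    ring

lemma ZZ_shift {X Y : Type} {f : X → Y} {p : X → Circle} {a : ℕ} {h : X → ℝ} {y : Y} {t : ℝ}
    (hz : (y, t) ∈ ZZ f p a h) (m : ℤ) : (y, t + 2 * Real.pi * a * m) ∈ ZZ f p a h := by
  obtain ⟨x, s, h1, h2, h3⟩ := hz
  refine ⟨x, s + m * (2 * Real.pi), h1, ?_, ?_⟩
  · rw [← h2, Circle.exp_eq_exp]
    exact ⟨m, rfl⟩
  · simp only at h3
    simp only [← h3]
    ring

lemma ZZ_closed {X Y : Type} [TopologicalSpace X] [CompactSpace X] [TopologicalSpace Y] [T2Space Y]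
    {f : X → Y} (hf : Continuous f) {p : X → Circle} (hp : Continuous p) {a : ℕ} (ha : 0 < a)
    {h : X → ℝ} (hh : Continuous h) : IsClosed (ZZ f p a h) := by
  have : ZZ f p a h = Prod.snd '' {w : X × (Y × ℝ) | f w.1 = w.2.1 ∧
      Circle.exp ((w.2.2 - h w.1) / a) = p w.1} := by
    ext z
    rw [mem_ZZ_iff ha]
    simp
  rw [this]
  apply isClosedMap_snd_of_compactSpace
  exact (isClosed_eq (by fun_prop) (by fun_prop)).inter (isClosed_eq (by fun_prop) (by fun_prop))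

lemma ZZ_exp {X Y : Type} {f : X → Y} {p : X → Circle} {a : ℕ} {h : X → ℝ} {q : Y → Circle}
    (hq : ∀ x, q (f x) = p x ^ a * Circle.exp (h x)) {z : Y × ℝ} (hz : z ∈ ZZ f p a h) :
    q z.1 = Circle.exp z.2 := by
  obtain ⟨x, s, h1, h2, h3⟩ := hz
  rw [← h1, hq, ← h3, ← h2, Circle.exp_add, Circle.exp_natCast_mul]

/-- A local section of the exponential over `p`. -/
lemma local_section {X : Type} [TopologicalSpace X] {p : X → Circle} (hp : Continuous p) {x₀ : X}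
    {s₀ : ℝ} (h : Circle.exp s₀ = p x₀) :
    ∃ sx : X → ℝ, (∀ x, Circle.exp (sx x) = p x) ∧ ContinuousAt sx x₀ ∧ sx x₀ = s₀ := by
  refine ⟨fun x => s₀ + Complex.arg (p x / p x₀ : Circle), fun x => ?_, ?_, by simp⟩
  · rw [Circle.exp_add, Circle.exp_arg, h]
    simp
  · refine ContinuousAt.add continuousAt_const ?_
    refine ContinuousAt.comp (g := Complex.arg) (f := fun x => ((p x / p x₀ : Circle) : ℂ)) ?_ (by fun_prop)
    apply Complex.continuousAt_arg
    simp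

lemma root_near_one (a : ℕ) (ha : 0 < a) : ∀ᶠ w in 𝓝 (1 : Circle), w ^ a = 1 → w = 1 := by
  have ha' : (0 : ℝ) < a := by exact_mod_cast ha
  have hpi := Real.pi_pos
  filter_upwards [eventually_cl (show 0 < 2 * Real.pi / a by positivity) 1] with w hw hwa
  obtain ⟨α, hα, rfl⟩ := hw
  rw [one_mul, ← Circle.exp_natCast_mul, Circle.exp_eq_one] at hwa
  obtain ⟨m, hm⟩ := hwa
  rw [lt_div_iff₀ ha'] at hα
  have h1 : |(a : ℝ) * α| < 2 * Real.pi := by
    rw [abs_mul, abs_of_pos ha']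
    linarith
  rw [hm, abs_mul, abs_of_pos (show (0 : ℝ) < 2 * Real.pi by positivity)] at h1
  have h2 : |(m : ℝ)| < 1 := by
    by_contra hcon
    push Not at hcon
    nlinarith
  have h3 : m = 0 := by
    have : |m| < 1 := by exact_mod_cast h2
    exact Int.abs_lt_one_iff.mp this
  rw [h3] at hm
  have h4 : α = 0 := by
    have : (a : ℝ) * α = 0 := by rw [hm]; simp
    rcases mul_eq_zero.mp this with h | h
    · linarith
    · exact h
  rw [h4]; simp

section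

variable {X Y : Type} [TopologicalSpace X] [TopologicalSpace Y]
  {f : X → Y} {p : X → Circle} {a : ℕ} {h : X → ℝ} {q : Y → Circle}

/-- Local lifting. -/
lemma local_lift (hf : Continuous f) (ho : IsOpenMap f) (hp : Continuous p) (ha : 0 < a)
    (hh : Continuous h) (hq : ∀ x, q (f x) = p x ^ a * Circle.exp (h x))
    {x₀ : X} {z₀ : Y × ℝ} (h1 : f x₀ = z₀.1) (h2 : Circle.exp ((z₀.2 - h x₀) / a) = p x₀)
    {U : Set (X × (Y × ℝ))} (hU : U ∈ 𝓝 (x₀, z₀)) :
    ∀ᶠ z in 𝓝 z₀, q z.1 = Circle.exp z.2 → ∃ x, f x = z.1 ∧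
      Circle.exp ((z.2 - h x) / a) = p x ∧ (x, z) ∈ U := by
  have ha' : (a : ℝ) ≠ 0 := by positivity
  have hz₀ : z₀ = (f x₀, z₀.2) := by rw [h1]
  have hopen : IsOpenMap (fun w : X × ℝ => (f w.1, w.2)) := ho.prodMap IsOpenMap.id
  have hV1 : ∀ᶠ w : X × ℝ in 𝓝 (x₀, z₀.2), (w.1, (f w.1, w.2)) ∈ U := by
    have hc : Continuous fun w : X × ℝ => (w.1, (f w.1, w.2)) := by fun_prop
    have hU' : U ∈ 𝓝 ((fun w : X × ℝ => (w.1, (f w.1, w.2))) (x₀, z₀.2)) := by
      simp only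
      rw [← hz₀]
      exact hU
    exact hc.continuousAt.eventually hU'
  have hV2 : ∀ᶠ w : X × ℝ in 𝓝 (x₀, z₀.2), q (f w.1) = Circle.exp w.2 →
      Circle.exp ((w.2 - h w.1) / a) = p w.1 := by
    have hc : Continuous fun w : X × ℝ => Circle.exp ((w.2 - h w.1) / a) / p w.1 := by fun_prop
    have h3 : (fun w : X × ℝ => Circle.exp ((w.2 - h w.1) / a) / p w.1) (x₀, z₀.2) = 1 := by
      simp only
      rw [h2]; simp
    have h4 := hc.continuousAt.eventually (by rw [h3]; exact root_near_one a ha)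
    filter_upwards [h4] with w hw hqw
    have h5 : (Circle.exp ((w.2 - h w.1) / a) / p w.1) ^ a = 1 := by
      rw [div_pow, ← Circle.exp_natCast_mul, mul_div_cancel₀ _ ha', Circle.exp_sub, ← hqw, hq]
      simp
    exact div_eq_one.mp (hw h5)
  have h6 := hopen.nhds_le (x₀, z₀.2)
  have h7 := h6 (Filter.image_mem_map (hV1.and hV2))
  simp only at h7
  rw [← hz₀] at h7
  filter_upwards [h7] with z hz hqz
  obtain ⟨⟨x, t⟩, ⟨hw1, hw2⟩, rfl⟩ := hz
  exact ⟨x, rfl, hw2 hqz, hw1⟩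

lemma ZZ_nhds (hf : Continuous f) (ho : IsOpenMap f) (hp : Continuous p) (ha : 0 < a)
    (hh : Continuous h) (hq : ∀ x, q (f x) = p x ^ a * Circle.exp (h x))
    {z₀ : Y × ℝ} (hz : z₀ ∈ ZZ f p a h) :
    ∀ᶠ z in 𝓝 z₀, q z.1 = Circle.exp z.2 → z ∈ ZZ f p a h := by
  obtain ⟨x₀, h1, h2⟩ := (mem_ZZ_iff ha).mp hz
  filter_upwards [local_lift hf ho hp ha hh hq h1 h2 (univ_mem)] with z hz hqz
  obtain ⟨x, h3, h4, -⟩ := hz hqz
  exact (mem_ZZ_iff ha).mpr ⟨x, h3, h4⟩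

/-- The minimum function on `ZZ`. -/
theorem exists_u [CompactSpace X] [T2Space Y] (hf : Continuous f) (ho : IsOpenMap f)
    (hp : Continuous p) (ha : 0 < a)
    (hh : Continuous h) (hq : ∀ x, q (f x) = p x ^ a * Circle.exp (h x)) :
    ∃ u : Y × ℝ → ℝ, ContinuousOn u (ZZ f p a h) ∧
      (∀ z ∈ ZZ f p a h, ∃ x, f x = z.1 ∧ Circle.exp (u z) = p x ∧ a * u z + h x = z.2) ∧
      (∀ z ∈ ZZ f p a h, ∀ x s, f x = z.1 → Circle.exp s = p x → a * s + h x = z.2 → u z ≤ s) := by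
  have ha' : (a : ℝ) ≠ 0 := by positivity
  obtain ⟨m, hm1, hm2, hm3⟩ := min_continuous (X := X) (T := ZZ f p a h)
    {w | f w.1 = w.2.1.1 ∧ Circle.exp ((w.2.1.2 - h w.1) / a) = p w.1}
    ((isClosed_eq (by fun_prop) (by fun_prop)).inter (isClosed_eq (by fun_prop) (by fun_prop)))
    (fun U hU => by
      rw [isOpen_iff_mem_nhds]
      rintro z₀ ⟨⟨x₀, z₀'⟩, ⟨⟨h1, h2⟩, h3⟩, rfl⟩
      simp only at h1 h2 ⊢
      obtain ⟨V, hV, hVU⟩ : ∃ V ∈ 𝓝 (x₀, (z₀' : Y × ℝ)), ∀ x (z : ZZ f p a h), (x, (z : Y × ℝ)) ∈ V →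
          (x, z) ∈ U := by
        have hU' := hU.mem_nhds h3
        have hind : IsInducing (fun w : X × ZZ f p a h => (w.1, (w.2 : Y × ℝ))) :=
          IsInducing.id.prodMap IsInducing.subtypeVal
        rw [hind.nhds_eq_comap, Filter.mem_comap] at hU'
        obtain ⟨V, hV, hVU⟩ := hU'
        exact ⟨V, hV, fun x z hz => hVU hz⟩
      have h4 := local_lift hf ho hp ha hh hq h1 h2 hV
      have h5 : ∀ᶠ z : ZZ f p a h in 𝓝 z₀', q z.1.1 = Circle.exp z.1.2 → ∃ x, f x = z.1.1 ∧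
          Circle.exp ((z.1.2 - h x) / a) = p x ∧ (x, z.1) ∈ V :=
        continuous_subtype_val.continuousAt.eventually h4
      filter_upwards [h5] with z hz
      obtain ⟨x, h6, h7, h8⟩ := hz (ZZ_exp hq z.2)
      exact ⟨(x, z), ⟨⟨h6, h7⟩, hVU _ _ h8⟩, rfl⟩)
    (fun w => (w.2.1.2 - h w.1) / a) (by fun_prop) (fun z => by
      obtain ⟨x, h1, h2⟩ := (mem_ZZ_iff ha).mp z.2
      exact ⟨x, h1, h2⟩)
  classical
  let u : Y × ℝ → ℝ := fun z => if hz : z ∈ ZZ f p a h then m ⟨z, hz⟩ else 0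
  have hu : ∀ z (hz : z ∈ ZZ f p a h), u z = m ⟨z, hz⟩ := fun z hz => dif_pos hz
  refine ⟨u, ?_, ?_, ?_⟩
  · rw [continuousOn_iff_continuous_domRestrict]
    have : (ZZ f p a h).domRestrict u = m := by
      ext z
      rw [Set.domRestrict_apply, hu z.1 z.2]
    rw [this]
    exact hm1
  · intro z hz
    obtain ⟨x, ⟨h1, h2⟩, h3⟩ := hm2 ⟨z, hz⟩
    refine ⟨x, h1, ?_, ?_⟩
    · rw [hu z hz, ← h3]
      exact h2
    · rw [hu z hz, ← h3]
      field_simp
      ring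
  · intro z hz x s h1 h2 h3
    rw [hu z hz]
    have h4 : (z.2 - h x) / a = s := by
      rw [← h3]
      field_simp
      ring
    have h5 := hm3 x ⟨z, hz⟩ ⟨h1, by
      simp only
      rw [h4]
      exact h2⟩
    simp only at h5
    rwa [h4] at h5

omit [TopologicalSpace X] [TopologicalSpace Y] in
/-- Periodicity of the minimum function. -/
lemma u_period {u : Y × ℝ → ℝ} 
    (hA : ∀ z ∈ ZZ f p a h, ∃ x, f x = z.1 ∧ Circle.exp (u z) = p x ∧ a * u z + h x = z.2)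
    (hM : ∀ z ∈ ZZ f p a h, ∀ x s, f x = z.1 → Circle.exp s = p x → a * s + h x = z.2 → u z ≤ s)
    {y : Y} {t : ℝ} (hz : (y, t) ∈ ZZ f p a h) (m : ℤ) :
    u (y, t + 2 * Real.pi * a * m) = u (y, t) + 2 * Real.pi * m := by
  have key : ∀ (y : Y) (t : ℝ) (m : ℤ), (y, t) ∈ ZZ f p a h →
      u (y, t + 2 * Real.pi * a * m) ≤ u (y, t) + 2 * Real.pi * m := by
    intro y t m hz
    obtain ⟨x, h1, h2, h3⟩ := hA _ hz
    refine hM _ (ZZ_shift hz m) x _ h1 ?_ ?_
    · rw [← h2, Circle.exp_eq_exp]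
      exact ⟨m, by ring⟩
    · simp only at h3 ⊢
      linarith
  refine le_antisymm (key y t m hz) ?_
  have h4 := key y (t + 2 * Real.pi * a * m) (-m) (ZZ_shift hz m)
  have h5 : t + 2 * Real.pi * a * m + 2 * Real.pi * a * ((-m : ℤ) : ℝ) = t := by
    push_cast; ring
  rw [h5] at h4
  push_cast at h4
  linarith

/-- The fibres of `ZZ` over `Y` are cosets of one subgroup. -/
theorem exists_g [CompactSpace X] [ConnectedSpace X] [T2Space Y] (hf : Continuous f)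
    (ho : IsOpenMap f) (hp : Continuous p) (ha : 0 < a)
    (hh : Continuous h) (hq : ∀ x, q (f x) = p x ^ a * Circle.exp (h x)) :
    ∃ g : ℕ, 0 < g ∧ g ∣ a ∧ ∀ y t, (y, t) ∈ ZZ f p a h →
      ∀ l : ℤ, (y, t + 2 * Real.pi * l) ∈ ZZ f p a h ↔ (g : ℤ) ∣ l := by
  have hcl := ZZ_closed hf hp ha hh
  let A : ℤ → Set X := fun l => {x | ∃ s, Circle.exp s = p x ∧
    (f x, a * s + h x + 2 * Real.pi * l) ∈ ZZ f p a h}
  have hA : ∀ l, IsClopen (A l) := by
    intro l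
    constructor
    · rw [← isOpen_compl_iff, isOpen_iff_mem_nhds]
      intro x₀ hx₀
      obtain ⟨sx, hs1, hs2, hs3⟩ := local_section hp (Circle.exp_arg (p x₀))
      have h1 : (f x₀, a * sx x₀ + h x₀ + 2 * Real.pi * l) ∉ ZZ f p a h :=
        fun hcon => hx₀ ⟨_, hs1 x₀, hcon⟩
      have h2 : ContinuousAt (fun x => (f x, a * sx x + h x + 2 * Real.pi * l)) x₀ := by fun_prop
      have h3 := h2.eventually (hcl.isOpen_compl.mem_nhds h1)
      filter_upwards [h3] with x hx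
      rintro ⟨s, h4, h5⟩
      apply hx
      rw [← hs1 x, Circle.exp_eq_exp] at h4
      obtain ⟨m, hm⟩ := h4
      have h6 := ZZ_shift h5 (-m)
      rw [hm] at h6
      convert h6 using 2
      push_cast
      ring
    · rw [isOpen_iff_mem_nhds]
      rintro x₀ ⟨s₀, hs₀, hx₀⟩
      obtain ⟨sx, hs1, hs2, hs3⟩ := local_section hp hs₀
      have h2 : ContinuousAt (fun x => (f x, a * sx x + h x + 2 * Real.pi * l)) x₀ := by fun_prop
      have hx₀' : (f x₀, a * sx x₀ + h x₀ + 2 * Real.pi * l) ∈ ZZ f p a h := by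
        rw [hs3]; exact hx₀
      have h3 := h2.eventually (ZZ_nhds hf ho hp ha hh hq hx₀')
      filter_upwards [h3] with x hx
      refine ⟨sx x, hs1 x, hx ?_⟩
      rw [hq, Circle.exp_add, Circle.exp_add, Circle.exp_natCast_mul, hs1, Circle.exp_two_pi_mul_int,
        mul_one]
  have hA' : ∀ l, (A l).Nonempty → A l = univ := fun l hl => (hA l).eq_univ hl
  -- global form
  have hC : ∀ l : ℤ, (∃ z ∈ ZZ f p a h, (z.1, z.2 + 2 * Real.pi * l) ∈ ZZ f p a h) →
      ∀ z ∈ ZZ f p a h, (z.1, z.2 + 2 * Real.pi * l) ∈ ZZ f p a h := by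
    rintro l ⟨⟨y, t⟩, ⟨x, s, h1, h2, h3⟩, h4⟩ ⟨y', t'⟩ ⟨x', s', h1', h2', h3'⟩
    simp only at h1 h3 h4 h1' h3' ⊢
    have h5 : (A l).Nonempty := ⟨x, s, h2, by rw [h1, h3]; exact h4⟩
    have h6 : x' ∈ A l := by rw [hA' l h5]; trivial
    obtain ⟨s'', h7, h8⟩ := h6
    rw [← h2', Circle.exp_eq_exp] at h7
    obtain ⟨m, hm⟩ := h7
    have h9 := ZZ_shift h8 (-m)
    rw [hm] at h9
    rw [← h1', ← h3']
    convert h9 using 2
    push_cast
    ring
  -- base point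
  obtain ⟨x₀⟩ : Nonempty X := inferInstance
  have hb : (f x₀, a * Complex.arg (p x₀) + h x₀) ∈ ZZ f p a h := mem_ZZ (Circle.exp_arg _) rfl
  let L : AddSubgroup ℤ :=
    { carrier := {l | ∀ z ∈ ZZ f p a h, (z.1, z.2 + 2 * Real.pi * l) ∈ ZZ f p a h}
      zero_mem' := by
        intro z hz
        simpa using hz
      add_mem' := by
        intro l l' hl hl' z hz
        have h1 := hl' _ (hl z hz)
        simp only at h1
        convert h1 using 2
        push_cast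
        ring
      neg_mem' := by
        intro l hl
        apply hC
        refine ⟨_, hl _ hb, ?_⟩
        simp only
        convert hb using 2
        push_cast
        ring }
  have haL : (a : ℤ) ∈ L := by
    rintro ⟨y, t⟩ hz
    have := ZZ_shift hz 1
    simp only
    convert this using 2
    push_cast
    ring
  obtain ⟨g₀, hg₀⟩ := Int.subgroup_cyclic L
  have hL : ∀ l : ℤ, l ∈ L ↔ g₀ ∣ l := by
    intro l
    rw [hg₀, ← AddSubgroup.zmultiples_eq_closure, Int.mem_zmultiples_iff]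
  have hg₀ne : g₀ ≠ 0 := by
    intro h0
    have := (hL a).mp haL
    rw [h0, zero_dvd_iff] at this
    have : a = 0 := by exact_mod_cast this
    omega
  refine ⟨g₀.natAbs, Int.natAbs_pos.mpr hg₀ne, ?_, ?_⟩
  · have := (hL a).mp haL
    rw [← Int.natAbs_dvd_natAbs] at this
    simpa using this
  · intro y t hz l
    rw [Int.natAbs_dvd, ← hL]
    constructor
    · intro h1
      exact hC l ⟨_, hz, h1⟩
    · intro h1
      exact h1 _ hz

end

end Pool.Agent.Lib.MP_8afd67_gt
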