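import Mathlib
import Pool.Agent.Lib.MP_8afd67_gt.Spiral

set_option autoImplicit false

open Set Topology Filter

namespace Pool.Agent.Lib.MP_8afd67_gt

section

variable {X Y : Type} [TopologicalSpace X]
  {f : X → Y} {p : X → Circle} {a : ℕ} {h : X → ℝ}

/-- Strict growth of the minimum function along the deck transformation. -/
theorem exists_growth [TopologicalSpace Y] [CompactSpace X] [ConnectedSpace X] (hf : Continuous f)
    (hp : Continuous p)
    (hh : Continuous h) (hN : ∀ x x', p x = p x' → |h x - h x'| < 2 * Real.pi)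
    {u : Y × ℝ → ℝ} (hu : ContinuousOn u (ZZ f p a h))
    (hA : ∀ z ∈ ZZ f p a h, ∃ x, f x = z.1 ∧ Circle.exp (u z) = p x ∧ a * u z + h x = z.2)
    (hM : ∀ z ∈ ZZ f p a h, ∀ x s, f x = z.1 → Circle.exp s = p x → a * s + h x = z.2 → u z ≤ s)
    {g : ℕ} (hg0 : 0 < g) (hga : g ∣ a)
    (hg : ∀ y t, (y, t) ∈ ZZ f p a h →
      ∀ l : ℤ, (y, t + 2 * Real.pi * l) ∈ ZZ f p a h ↔ (g : ℤ) ∣ l) :
    ∃ η > 0, ∀ y t, (y, t) ∈ ZZ f p a h → u (y, t) + η ≤ u (y, t + 2 * Real.pi * g) := by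
  have hpi := Real.pi_pos
  have hgm : ∀ y t, (y, t) ∈ ZZ f p a h → (y, t + 2 * Real.pi * g) ∈ ZZ f p a h := by
    intro y t hz
    have := (hg y t hz (g : ℤ)).mpr dvd_rfl
    push_cast at this
    exact this
  let Dz : Y × ℝ → ℝ := fun z => u (z.1, z.2 + 2 * Real.pi * g) - u z
  have hDc : ContinuousOn Dz (ZZ f p a h) := by
    refine ContinuousOn.sub ?_ hu
    refine hu.comp (f := fun z : Y × ℝ => (z.1, z.2 + 2 * Real.pi * g)) (by fun_prop) ?_
    rintro ⟨y, t⟩ hz
    exact hgm y t hz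
  have hDp : ∀ y t, (y, t) ∈ ZZ f p a h → ∀ m : ℤ, Dz (y, t + 2 * Real.pi * a * m) = Dz (y, t) := by
    intro y t hz m
    simp only [Dz]
    rw [u_period hA hM hz m]
    have h1 := u_period hA hM (hgm y t hz) m
    have h2 : t + 2 * Real.pi * a * m + 2 * Real.pi * g = t + 2 * Real.pi * g + 2 * Real.pi * a * m := by
      ring
    rw [h2, h1]
    ring
  have hDne : ∀ z ∈ ZZ f p a h, Dz z ≠ 0 := by
    rintro ⟨y, t⟩ hz h0
    obtain ⟨x, h1, h2, h3⟩ := hA _ hz
    obtain ⟨x', h1', h2', h3'⟩ := hA _ (hgm y t hz)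
    have h4 : u (y, t + 2 * Real.pi * g) = u (y, t) := by
      simp only [Dz] at h0
      linarith
    rw [h4] at h2' h3'
    have h5 := hN x' x (by rw [← h2, ← h2'])
    simp only at h3 h3'
    have h6 : h x' - h x = 2 * Real.pi * g := by linarith
    rw [h6, abs_of_nonneg (by positivity)] at h5
    have h7 : (1 : ℝ) ≤ g := by exact_mod_cast hg0
    nlinarith
  let Dx : X → ℝ := fun x => Dz (f x, a * Complex.arg (p x) + h x)
  have hZx : ∀ x, (f x, a * Complex.arg (p x) + h x) ∈ ZZ f p a h :=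
    fun x => mem_ZZ (Circle.exp_arg _) rfl
  have hDx : Continuous Dx := by
    rw [continuous_iff_continuousAt]
    intro x₀
    obtain ⟨sx, hs1, hs2, hs3⟩ := local_section hp (Circle.exp_arg (p x₀))
    have h1 : Dx = fun x => Dz (f x, a * sx x + h x) := by
      ext x
      have h2 : Circle.exp (sx x) = Circle.exp (Complex.arg (p x)) := by
        rw [hs1, Circle.exp_arg]
      rw [Circle.exp_eq_exp] at h2
      obtain ⟨m, hm⟩ := h2
      simp only [Dx]
      rw [← hDp _ _ (hZx x) m, hm]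
      congr 2
      ring
    rw [h1]
    have h3 : ContinuousWithinAt Dz (ZZ f p a h) (f x₀, a * sx x₀ + h x₀) :=
      hDc _ (mem_ZZ (hs1 _) rfl)
    have h4 : ContinuousAt (fun x => (f x, a * sx x + h x)) x₀ := by fun_prop
    have h5 : ∀ x, (fun x => (f x, a * sx x + h x)) x ∈ ZZ f p a h := fun x => mem_ZZ (hs1 _) rfl
    have h6 : Tendsto (fun x => (f x, a * sx x + h x)) (𝓝 x₀)
        (𝓝[ZZ f p a h] (f x₀, a * sx x₀ + h x₀)) :=
      tendsto_nhdsWithin_of_tendsto_nhds_of_eventually_within _ h4 (Eventually.of_forall h5)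
    exact h3.tendsto.comp h6
  have hDxne : ∀ x, Dx x ≠ 0 := fun x => hDne _ (hZx x)
  have hDzx : ∀ z ∈ ZZ f p a h, ∃ x, Dz z = Dx x := by
    rintro ⟨y, t⟩ ⟨x, s, h1, h2, h3⟩
    refine ⟨x, ?_⟩
    rw [← Circle.exp_arg (p x), Circle.exp_eq_exp] at h2
    obtain ⟨m, hm⟩ := h2
    simp only at h1 h3
    simp only [Dx]
    rw [← hDp _ _ (hZx x) m, ← h1, ← h3, hm]
    congr 2
    ring
  have hpos : ∀ x, 0 < Dx x := by
    by_contra hcon
    push Not at hcon
    obtain ⟨x₁, hx₁⟩ := hcon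
    have hneg : ∀ x, Dx x < 0 := by
      intro x
      by_contra hx
      push Not at hx
      obtain ⟨x₂, hx₂⟩ := mem_range_of_exists_le_of_exists_ge hDx ⟨x₁, hx₁⟩ ⟨x, hx⟩
      exact hDxne x₂ hx₂
    have hneg' : ∀ z ∈ ZZ f p a h, Dz z < 0 := by
      intro z hz
      obtain ⟨x, hx⟩ := hDzx z hz
      rw [hx]
      exact hneg x
    have hiter : ∀ (k : ℕ) y t, (y, t) ∈ ZZ f p a h →
        (y, t + 2 * Real.pi * g * k) ∈ ZZ f p a h ∧ u (y, t + 2 * Real.pi * g * k) ≤ u (y, t) := by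
      intro k
      induction k with
      | zero => intro y t hz; simpa using hz
      | succ n ih =>
        intro y t hz
        obtain ⟨h1, h2⟩ := ih y t hz
        have h3 : t + 2 * Real.pi * g * ((n + 1 : ℕ) : ℝ) = t + 2 * Real.pi * g * n + 2 * Real.pi * g := by
          push_cast; ring
        rw [h3]
        refine ⟨hgm _ _ h1, ?_⟩
        have h4 := hneg' _ h1
        simp only [Dz] at h4
        linarith
    obtain ⟨b, hb⟩ := hga
    have h1 := (hiter b _ _ (hZx x₁)).2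
    have h2 := u_period hA hM (hZx x₁) 1
    have h3 : a * Complex.arg (p x₁) + h x₁ + 2 * Real.pi * g * b =
        a * Complex.arg (p x₁) + h x₁ + 2 * Real.pi * a * ((1 : ℤ) : ℝ) := by
      have : (a : ℝ) = g * b := by exact_mod_cast hb
      rw [show (2 * Real.pi * (a : ℝ) * ((1 : ℤ) : ℝ)) = 2 * Real.pi * (g * b) by rw [this]; push_cast; ring]
      ring
    rw [h3, h2] at h1
    push_cast at h1
    linarith
  obtain ⟨x₀, -, hx₀⟩ := isCompact_univ.exists_isMinOn (univ_nonempty (α := X)) (f := Dx)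
    hDx.continuousOn
  refine ⟨Dx x₀, hpos x₀, fun y t hz => ?_⟩
  obtain ⟨x, hx⟩ := hDzx _ hz
  have h1 : Dx x₀ ≤ Dx x := hx₀ (mem_univ x)
  rw [← hx] at h1
  simp only [Dz] at h1
  linarith

end

/-- Uniform continuity of the minimum function. -/
theorem u_unif {X Y : Type} [MetricSpace X] [CompactSpace X] [MetricSpace Y] [CompactSpace Y]
    {f : X → Y} {p : X → Circle} {a : ℕ} {h : X → ℝ} (hf : Continuous f) (hp : Continuous p)
    (ha : 0 < a) (hh : Continuous h)
    {u : Y × ℝ → ℝ} (hu : ContinuousOn u (ZZ f p a h))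
    (hA : ∀ z ∈ ZZ f p a h, ∃ x, f x = z.1 ∧ Circle.exp (u z) = p x ∧ a * u z + h x = z.2)
    (hM : ∀ z ∈ ZZ f p a h, ∀ x s, f x = z.1 → Circle.exp s = p x → a * s + h x = z.2 → u z ≤ s)
    {κ : ℝ} (hκ : 0 < κ) :
    ∃ δ > 0, ∀ y t y' t', (y, t) ∈ ZZ f p a h → (y', t') ∈ ZZ f p a h → dist y y' < δ →
      |t - t'| < δ → |u (y, t) - u (y', t')| < κ := by
  have hpi := Real.pi_pos
  have ha' : (0 : ℝ) < a := by exact_mod_cast ha
  have hcomp : IsCompact (ZZ f p a h ∩ (univ ×ˢ Icc (-1) (2 * Real.pi * a + 1))) :=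
    IsCompact.inter_left (isCompact_univ.prod isCompact_Icc) (ZZ_closed hf hp ha hh)
  have huc := hcomp.uniformContinuousOn_of_continuous (hu.mono inter_subset_left)
  rw [Metric.uniformContinuousOn_iff] at huc
  obtain ⟨δ, hδ, hd⟩ := huc κ hκ
  refine ⟨min δ 1, by positivity, fun y t y' t' hz hz' h1 h2 => ?_⟩
  have hδ1 := min_le_left δ 1
  have hδ2 := min_le_right δ 1
  obtain ⟨m, ⟨hm1, hm2⟩, -⟩ := existsUnique_add_zsmul_mem_Ico
    (show 0 < 2 * Real.pi * a by positivity) t 0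
  rw [zsmul_eq_mul] at hm1 hm2
  rw [abs_lt] at h2
  have e1 := hd (y, t + 2 * Real.pi * a * m) ⟨ZZ_shift hz m, mem_univ _, by
      simp only; constructor <;> linarith⟩
    (y', t' + 2 * Real.pi * a * m) ⟨ZZ_shift hz' m, mem_univ _, by
      simp only; constructor <;> linarith⟩ (by
      rw [Prod.dist_eq]
      refine max_lt (by simp only; linarith) ?_
      simp only
      rw [Real.dist_eq, abs_lt]
      constructor <;> linarith)
  rw [Real.dist_eq, u_period hA hM hz, u_period hA hM hz'] at e1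
  convert e1 using 2
  ring

end Pool.Agent.Lib.MP_8afd67_gt
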