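import Mathlib
import Pool.Agent.Lib.MP_8afd67_gt.Growth

set_option autoImplicit false

open Set Topology Filter

namespace Pool.Agent.Lib.MP_8afd67_gt

/-- The long space associated with the spiral set. -/
theorem exists_longSpace {X Y : Type} [MetricSpace X] [CompactSpace X] [ConnectedSpace X]
    [MetricSpace Y] [CompactSpace Y]
    {f : X → Y} (hf : Continuous f) (hs : Function.Surjective f) (ho : IsOpenMap f)
    {p : X → Circle} (hp : Continuous p) {a : ℕ} (ha : 0 < a) {h : X → ℝ} (hh : Continuous h)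
    {q : Y → Circle} (hq : ∀ x, q (f x) = p x ^ a * Circle.exp (h x))
    (hN : ∀ x x', p x = p x' → |h x - h x'| < 2 * Real.pi) :
    ∃ (g : ℕ) (D : LongSpace (ZZ f p a h) Y), 0 < g ∧
      (∀ z, D.π z = z.1.1) ∧ (∀ z, (D.σ 1 z).1 = (z.1.1, z.1.2 + 2 * Real.pi * g)) ∧
      (∀ z : ZZ f p a h, ∃ x, f x = z.1.1 ∧ Circle.exp (D.u z) = p x ∧ a * D.u z + h x = z.1.2) := by
  classical
  have hpi := Real.pi_pos
  obtain ⟨u, hu, hA, hM⟩ := exists_u hf ho hp ha hh hq
  obtain ⟨g, hg0, hga, hg⟩ := exists_g hf ho hp ha hh hq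
  obtain ⟨η, hη, hgr⟩ := exists_growth hf hp hh hN hu hA hM hg0 hga hg
  have hmem : ∀ (k : ℤ) (z : ZZ f p a h), (z.1.1, z.1.2 + 2 * Real.pi * g * k) ∈ ZZ f p a h := by
    intro k z
    have h1 := (hg z.1.1 z.1.2 z.2 (g * k)).mpr (Dvd.intro _ rfl)
    convert h1 using 2
    push_cast
    ring
  obtain ⟨b, hb⟩ := hga
  have hb' : (a : ℝ) = g * b := by exact_mod_cast hb
  refine ⟨g, 
    { π := fun z => z.1.1
      π_cont := by fun_prop
      π_open := ?_
      π_surj := ?_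
      σ := fun k z => ⟨(z.1.1, z.1.2 + 2 * Real.pi * g * k), hmem k z⟩
      σ_cont := fun k => by fun_prop
      σ_zero := fun z => by
        apply Subtype.ext
        simp
      σ_add := fun m n z => by
        apply Subtype.ext
        simp only
        congr 1
        push_cast
        ring
      π_σ := fun k z => rfl
      orbit := ?_
      u := fun z => u z.1
      u_cont := ?_
      u_lt := ?_
      K := b
      c := 2 * Real.pi
      c_pos := by positivity
      u_K := ?_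
      compact := ?_ }, hg0, fun z => rfl, fun z => by simp, fun z => hA _ z.2⟩
  · intro U hU
    rw [isOpen_iff_mem_nhds]
    rintro _ ⟨z₀, hz₀, rfl⟩
    obtain ⟨x₀, s₀, h1, h2, h3⟩ := z₀.2
    obtain ⟨sx, hs1, hs2, hs3⟩ := local_section hp h2
    let Ψ : X → ZZ f p a h := fun x => ⟨(f x, a * sx x + h x), mem_ZZ (hs1 x) rfl⟩
    have hΨ : ContinuousAt Ψ x₀ := by
      have h4 : ContinuousAt (fun x => (f x, a * sx x + h x)) x₀ := by fun_prop
      rw [IsInducing.subtypeVal.continuousAt_iff]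
      exact h4
    have hΨ0 : Ψ x₀ = z₀ := by
      apply Subtype.ext
      simp only [Ψ]
      rw [hs3, h1, h3]
    have h5 : ∀ᶠ x in 𝓝 x₀, Ψ x ∈ U := by
      apply hΨ.eventually
      rw [hΨ0]
      exact hU.mem_nhds hz₀
    have h6 := ho.image_mem_nhds h5
    rw [h1] at h6
    refine Filter.mem_of_superset h6 ?_
    rintro _ ⟨x, hx, rfl⟩
    exact ⟨Ψ x, hx, rfl⟩
  · intro y
    obtain ⟨x, rfl⟩ := hs y
    exact ⟨⟨(f x, a * Complex.arg (p x) + h x), mem_ZZ (Circle.exp_arg _) rfl⟩, rfl⟩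
  · rintro ⟨⟨y, t⟩, hz⟩ ⟨⟨y', t'⟩, hz'⟩ hyy
    simp only at hyy
    subst hyy
    have h1 := ZZ_exp hq hz
    have h2 := ZZ_exp hq hz'
    simp only at h1 h2
    rw [h1] at h2
    rw [eq_comm, Circle.exp_eq_exp] at h2
    obtain ⟨l, hl⟩ := h2
    have h3 : (y, t + 2 * Real.pi * l) ∈ ZZ f p a h := by
      convert hz' using 2
      rw [hl]; ring
    obtain ⟨k, hk⟩ := (hg y t hz l).mp h3
    refine ⟨k, ?_⟩
    apply Subtype.ext
    simp only
    congr 1
    rw [hl, hk]
    push_cast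
    ring
  · have := continuousOn_iff_continuous_domRestrict.mp hu
    exact this
  · rintro ⟨⟨y, t⟩, hz⟩
    have := hgr y t hz
    simp only [Int.cast_one, mul_one]
    linarith
  · rintro ⟨⟨y, t⟩, hz⟩
    have h1 := u_period hA hM hz 1
    simp only
    rw [← mul_one (2 * Real.pi)] 
    have h2 : t + 2 * Real.pi * 1 * g * ((b : ℤ) : ℝ) = t + 2 * Real.pi * a * ((1 : ℤ) : ℝ) := by
      rw [hb']
      push_cast
      ring
    rw [h2, h1]
    push_cast
    ring
  · intro c d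
    rw [Subtype.isCompact_iff]
    obtain ⟨B, hB⟩ : ∃ B : ℝ, ∀ x, |h x| ≤ B := by
      obtain ⟨x, -, hx⟩ := isCompact_univ.exists_isMaxOn (univ_nonempty (α := X))
        (f := fun x => |h x|) (by fun_prop)
      exact ⟨|h x|, fun x' => hx (mem_univ x')⟩
    have h1 : Subtype.val '' {z : ZZ f p a h | c ≤ u z.1 ∧ u z.1 ≤ d} =
        (ZZ f p a h ∩ u ⁻¹' Icc c d) ∩ (univ ×ˢ Icc (a * c - B) (a * d + B)) := by
      ext ⟨y, t⟩
      constructor
      · rintro ⟨⟨z, hz⟩, ⟨h2, h3⟩, h4⟩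
        simp only at h2 h3 h4
        subst h4
        refine ⟨⟨hz, h2, h3⟩, mem_univ _, ?_⟩
        obtain ⟨x, e1, e2, e3⟩ := hA _ hz
        have e4 := abs_le.mp (hB x)
        have e5 : (a : ℝ) * c ≤ a * u (y, t) := mul_le_mul_of_nonneg_left h2 (by positivity)
        have e6 : (a : ℝ) * u (y, t) ≤ a * d := mul_le_mul_of_nonneg_left h3 (by positivity)
        simp only at e3 ⊢
        constructor <;> linarith [e4.1, e4.2]
      · rintro ⟨⟨hz, h2, h3⟩, -⟩
        exact ⟨⟨(y, t), hz⟩, ⟨h2, h3⟩, rfl⟩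
    rw [h1]
    refine IsCompact.inter_left (isCompact_univ.prod isCompact_Icc) ?_
    exact hu.preimage_isClosed_of_isClosed (ZZ_closed hf hp ha hh) isClosed_Icc

/-- Positive factorisation through arbitrarily fine maps. -/
theorem factor_pos {X : Type} [MetricSpace X] [CompactSpace X]
    (hX : ∀ ε > 0, ∃ p : X → Circle, Continuous p ∧ Function.Surjective p ∧
      ∀ x x', p x = p x' → dist x x' < ε)
    {φ : X → Circle} (hφ : Continuous φ) (hlog : ¬ HasLog φ) {δ' ε₀ : ℝ} (hδ' : 0 < δ')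
    (hε₀ : 0 < ε₀) :
    ∃ (p : X → Circle) (a : ℕ) (h : X → ℝ), Continuous p ∧ Function.Surjective p ∧
      (∀ x x', p x = p x' → dist x x' < ε₀) ∧ 0 < a ∧ Continuous h ∧
      (∀ x, φ x = p x ^ a * Circle.exp (h x)) ∧ ∀ x x', p x = p x' → |h x - h x'| < δ' := by
  obtain ⟨δ'', h1, h2, h3⟩ : ∃ δ'' > 0, δ'' < 1 ∧ 2 * δ'' ≤ δ' :=
    ⟨min (δ' / 2) (1 / 2), by positivity, lt_of_le_of_lt (min_le_right _ _) (by norm_num), by
      have := min_le_left (δ' / 2) (1 / 2)
      linarith⟩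
  obtain ⟨δ, hδ0, hδ1, hδ⟩ := exists_arg_control h1
  obtain ⟨ε₁, hε₁, huc⟩ := Metric.uniformContinuous_iff.mp
    (CompactSpace.uniformContinuous_of_continuous hφ) δ hδ0
  obtain ⟨p, hp, hps, hp2⟩ := hX (min ε₀ ε₁) (by positivity)
  obtain ⟨d, h, hh, hh2, hh3⟩ := factor h2 hδ0 hδ1 hδ hp hps hφ
    (fun x x' hxx => huc (lt_of_lt_of_le (hp2 x x' hxx) (min_le_right _ _)))
  have hd : d ≠ 0 := by
    rintro rfl
    exact hlog ⟨h, hh, fun x => by rw [hh2]; simp⟩
  rcases lt_or_gt_of_ne hd with hd | hd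
  · refine ⟨fun x => (p x)⁻¹, d.natAbs, h, by fun_prop, ?_, ?_, by omega, hh, ?_, ?_⟩
    · intro w
      obtain ⟨x, hx⟩ := hps w⁻¹
      exact ⟨x, by simp [hx]⟩
    · intro x x' hxx
      exact lt_of_lt_of_le (hp2 x x' (inv_injective hxx)) (min_le_left _ _)
    · intro x
      rw [hh2]
      congr 1
      have : d = -(d.natAbs : ℤ) := by omega
      rw [this, zpow_neg, zpow_natCast, inv_pow, Int.natAbs_neg, Int.natAbs_natCast]
    · intro x x' hxx
      have := hh3 x x' (inv_injective hxx)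
      linarith
  · refine ⟨p, d.natAbs, h, hp, hps, ?_, by omega, hh, ?_, ?_⟩
    · intro x x' hxx
      exact lt_of_lt_of_le (hp2 x x' hxx) (min_le_left _ _)
    · intro x
      rw [hh2]
      congr 1
      have : d = (d.natAbs : ℤ) := by omega
      rw [this, zpow_natCast, Int.natAbs_natCast]
    · intro x x' hxx
      have := hh3 x x' hxx
      linarith

theorem case_A {X Y : Type} [MetricSpace X] [CompactSpace X] [ConnectedSpace X]
    [MetricSpace Y] [CompactSpace Y]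
    {f : X → Y} (hf : Continuous f) (hs : Function.Surjective f) (ho : IsOpenMap f)
    (hX : ∀ ε > 0, ∃ p : X → Circle, Continuous p ∧ Function.Surjective p ∧
      ∀ x x', p x = p x' → dist x x' < ε)
    {q : Y → Circle} (hq : Continuous q) (hqlog : ¬ HasLog q) {ε : ℝ} (hε : 0 < ε) :
    ∃ G : Y → Circle, Continuous G ∧ ∀ y y', G y = G y' → dist y y' < 3 * ε := by
  have hpi := Real.pi_gt_three
  have hfu := Metric.uniformContinuous_iff.mp (CompactSpace.uniformContinuous_of_continuous hf)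
  -- coarse level
  obtain ⟨ε₀, hε₀, hfε₀⟩ := hfu ε hε
  obtain ⟨pn, a, h, hpn, hpns, hpn2, ha, hh, hfac, hosc⟩ := factor_pos hX (φ := fun x => q (f x))
    (by fun_prop) (fun hl => hqlog (HasLog.of_comp hf hs ho hl)) one_pos hε₀
  have ha' : (0 : ℝ) < a := by exact_mod_cast ha
  have hN : ∀ x x', pn x = pn x' → |h x - h x'| < 2 * Real.pi := fun x x' hxx => by
    have := hosc x x' hxx
    linarith
  obtain ⟨v, hv, hA, hM⟩ := exists_u hf ho hpn ha hh hfac
  obtain ⟨g, hg0, hga, hg⟩ := exists_g hf ho hpn ha hh hfac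
  obtain ⟨η, hη, hgr⟩ := exists_growth hf hpn hh hN hv hA hM hg0 hga hg
  obtain ⟨l, hl, hl2⟩ := exists_cl hpn hf (ε := ε) (fun x x' hxx => hfε₀ (hpn2 x x' hxx))
  obtain ⟨κ, hκ0, hκl, hκη⟩ : ∃ κ > 0, κ < l ∧ 2 * κ < η :=
    ⟨min (l / 2) (η / 3), by positivity, by
      have := min_le_left (l / 2) (η / 3)
      linarith, by
      have := min_le_right (l / 2) (η / 3)
      linarith⟩
  obtain ⟨δu, hδu, hun⟩ := u_unif hf hpn ha hh hv hA hM hκ0
  -- fine level
  have hpnlog : ¬ HasLog pn := by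
    rintro ⟨l, hl, hl2⟩
    apply hqlog
    refine HasLog.of_comp hf hs ho ⟨fun x => a * l x + h x, by fun_prop, fun x => ?_⟩
    have h9 : q (f x) = Circle.exp (a * l x + h x) := by
      rw [hfac, Circle.exp_add, Circle.exp_natCast_mul, hl2]
    exact h9
  obtain ⟨δm, hδm, hδm1, hδm2⟩ : ∃ δm > 0, δm ≤ δu ∧ δm ≤ 1 :=
    ⟨min δu 1, by positivity, min_le_left _ _, min_le_right _ _⟩
  obtain ⟨ε₁, hε₁, hhε₁⟩ := Metric.uniformContinuous_iff.mp
    (CompactSpace.uniformContinuous_of_continuous hh) (δm / 2) (by positivity)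
  obtain ⟨ε₂, hε₂, hfε₂⟩ := hfu (min ε δm) (by positivity)
  obtain ⟨pm, d, h', hpm, hpms, hpm2, hd, hh', hfac', hosc'⟩ := factor_pos hX hpn hpnlog
    (δ' := δm / (2 * a)) (ε₀ := min ε₁ ε₂) (by positivity) (by positivity)
  have hH : ∀ x x', pm x = pm x' → |(a * h' x + h x) - (a * h' x' + h x')| < δm := by
    intro x x' hxx
    have e1 := hosc' x x' hxx
    have e2 : |h x - h x'| < δm / 2 := by
      have := hhε₁ (lt_of_lt_of_le (hpm2 x x' hxx) (min_le_left _ _))
      rwa [Real.dist_eq] at this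
    have e3 : |(a : ℝ) * (h' x - h' x')| < δm / 2 := by
      rw [abs_mul, abs_of_pos ha']
      rw [lt_div_iff₀ (by positivity)] at e1
      linarith
    calc |(a * h' x + h x) - (a * h' x' + h x')| = |a * (h' x - h' x') + (h x - h x')| := by
          congr 1; ring
      _ ≤ |(a : ℝ) * (h' x - h' x')| + |h x - h x'| := abs_add_le _ _
      _ < δm := by linarith
  have hfd : ∀ x x', pm x = pm x' → dist (f x) (f x') < min ε δm := fun x x' hxx =>
    hfε₂ (lt_of_lt_of_le (hpm2 x x' hxx) (min_le_right _ _))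
  have hfacm : ∀ x, q (f x) = pm x ^ (a * d) * Circle.exp (a * h' x + h x) := by
    intro x
    rw [hfac, hfac', mul_pow, ← pow_mul, Circle.exp_add, Circle.exp_natCast_mul, mul_comm d a]
    rw [mul_assoc]
  obtain ⟨gm, D, hgm0, hDπ, hDσ, hDu⟩ := exists_longSpace hf hs ho hpm
    (a := a * d) (by positivity) (h := fun x => a * h' x + h x) (by fun_prop) hfacm
    (fun x x' hxx => by
      have := hH x x' hxx
      linarith)
  have hsub : ZZ f pm (a * d) (fun x => a * h' x + h x) ⊆ ZZ f pn a h := by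
    rintro ⟨y, t⟩ ⟨x, s, h1, h2, h3⟩
    refine ⟨x, d * s + h' x, h1, ?_, ?_⟩
    · rw [Circle.exp_add, Circle.exp_natCast_mul, h2, hfac']
    · simp only at h3 ⊢
      rw [← h3]
      push_cast
      ring
  have : Nonempty (ZZ f pm (a * d) (fun x => a * h' x + h x)) := by
    obtain ⟨x₀⟩ : Nonempty X := inferInstance
    exact ⟨⟨(f x₀, _), mem_ZZ (Circle.exp_arg (pm x₀)) rfl⟩⟩
  -- growth of v under the fine deck transformation
  have hiter : ∀ (k : ℕ) y t, (y, t) ∈ ZZ f pn a h →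
      (y, t + 2 * Real.pi * g * k) ∈ ZZ f pn a h ∧ v (y, t) + k * η ≤ v (y, t + 2 * Real.pi * g * k) := by
    intro k
    induction k with
    | zero => intro y t hz; simpa using hz
    | succ n ih =>
      intro y t hz
      obtain ⟨h1, h2⟩ := ih y t hz
      have h3 : t + 2 * Real.pi * g * ((n + 1 : ℕ) : ℝ) = t + 2 * Real.pi * g * n + 2 * Real.pi * g := by
        push_cast; ring
      rw [h3]
      have h4 := hgr _ _ h1
      refine ⟨?_, ?_⟩
      · have := (hg _ _ h1 (g : ℤ)).mpr dvd_rfl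
        push_cast at this
        exact this
      · push_cast
        linarith
  have hvη : ∀ z : ZZ f pm (a * d) (fun x => a * h' x + h x), v z.1 + η ≤ v (D.σ 1 z).1 := by
    rintro z
    rw [hDσ]
    have h1 := hsub z.2
    have h2 := hsub (D.σ 1 z).2
    rw [hDσ] at h2
    have h3 := (hg z.1.1 z.1.2 h1 (gm : ℤ)).mp (by push_cast; exact h2)
    have h4 : g ∣ gm := by exact_mod_cast h3
    obtain ⟨b, hb⟩ := h4
    have hb0 : 1 ≤ b := by
      rcases Nat.eq_zero_or_pos b with h0 | h0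
      · rw [h0, mul_zero] at hb; omega
      · exact h0
    have h5 := (hiter b z.1.1 z.1.2 h1).2
    have h6 : (gm : ℝ) = g * b := by exact_mod_cast hb
    have h7 : z.1.2 + 2 * Real.pi * gm = z.1.2 + 2 * Real.pi * g * b := by rw [h6]; ring
    rw [h7]
    have h8 : (1 : ℝ) ≤ b := by exact_mod_cast hb0
    have h9 : v z.1 = v (z.1.1, z.1.2) := rfl
    rw [h9]
    nlinarith
  have hclose : ∀ z z' : ZZ f pm (a * d) (fun x => a * h' x + h x), D.u z = D.u z' →
      dist z.1.1 z'.1.1 < min ε δm ∧ |z.1.2 - z'.1.2| < δm := by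
    intro z z' hzz
    obtain ⟨x, h1, h2, h3⟩ := hDu z
    obtain ⟨x', h1', h2', h3'⟩ := hDu z'
    rw [← hzz] at h2' h3'
    have h4 : pm x = pm x' := by rw [← h2, ← h2']
    refine ⟨by rw [← h1, ← h1']; exact hfd x x' h4, ?_⟩
    have h5 := hH x x' h4
    have h6 : z.1.2 - z'.1.2 = (a * h' x + h x) - (a * h' x' + h x') := by
      rw [← h3, ← h3']; ring
    rw [h6]
    exact h5
  refine lemma_A D (v := fun z => v z.1) ?_ hη hκ0.le hκη hvη ?_ ?_ ?_ ?_
  · have := continuousOn_iff_continuous_domRestrict.mp (hv.mono hsub)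
    exact this
  · intro z z' hzz
    obtain ⟨h1, h2⟩ := hclose z z' hzz
    exact (hun _ _ _ _ (hsub z.2) (hsub z'.2)
      (lt_of_lt_of_le h1 ((min_le_right _ _).trans hδm1)) (lt_of_lt_of_le h2 hδm1)).le
  · intro z z' hzz
    obtain ⟨h1, h2⟩ := hclose z z' hzz
    have e1 := hsub (D.σ 1 z).2
    have e2 := hsub (D.σ 1 z').2
    rw [hDσ] at e1 e2
    rw [hDσ, hDσ]
    have e3 : |z.1.2 + 2 * Real.pi * gm - (z'.1.2 + 2 * Real.pi * gm)| < δm := by
      have e4 : z.1.2 + 2 * Real.pi * gm - (z'.1.2 + 2 * Real.pi * gm) = z.1.2 - z'.1.2 := by ring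
      rw [e4]
      exact h2
    exact (hun _ _ _ _ e1 e2 (lt_of_lt_of_le h1 ((min_le_right _ _).trans hδm1))
      (lt_of_lt_of_le e3 hδm1)).le
  · intro z z' hzz
    rw [hDπ, hDπ]
    obtain ⟨x, h1, h2, h3⟩ := hA _ (hsub z.2)
    obtain ⟨x', h1', h2', h3'⟩ := hA _ (hsub z'.2)
    rw [← h1, ← h1']
    apply hl2
    refine ⟨v z'.1 - v z.1, ?_, ?_⟩
    · rw [abs_sub_comm]
      exact lt_of_le_of_lt hzz hκl
    · rw [← h2, ← h2', ← Circle.exp_add]
      congr 1
      ring
  · intro z z' hzz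
    rw [hDπ, hDπ]
    exact lt_of_lt_of_le (hclose z z' hzz).1 (min_le_left _ _)

end Pool.Agent.Lib.MP_8afd67_gt
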