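import Mathlib
import Pool.Agent.Lib.MP_8afd67_gt.Factor

set_option autoImplicit false

open Set Topology Filter

namespace Pool.Agent.Lib.MP_8afd67_gt

/-- Real trivialisation of an integer cocycle on pairs with close values of `p`. -/
theorem cocycle_real {X : Type*} [TopologicalSpace X] [CompactSpace X]
    {p : X → Circle} (hp : Continuous p) (hps : Function.Surjective p)
    {r : ℝ} (hr : 0 < r) (T : X → X → ℤ)
    (hT : ∀ x₁ x₂ x₃, Cl r (p x₁) (p x₂) → Cl r (p x₂) (p x₃) → Cl r (p x₁) (p x₃) →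
      T x₁ x₃ = T x₁ x₂ + T x₂ x₃)
    (hloc : ∀ x₀, ∀ᶠ x in 𝓝 x₀, T x x₀ = 0) :
    ∃ R : X → ℝ, Continuous R ∧ ∀ x x', p x = p x' → R x - R x' = T x x' := by
  obtain ⟨g, hg⟩ := exists_continuous_forall_mem_convex_of_local_const (X := Circle) (E := X → ℝ)
    (t := fun w => {e : X → ℝ | ∀ x x', Cl (r / 4) w (p x) → Cl (r / 4) w (p x') →
      e x - e x' = T x x'})
    (fun w => by
      intro a ha b hb s t hs ht hst x x' hx hx'
      have h1 := ha x x' hx hx'
      have h2 := hb x x' hx hx'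
      simp only [Pi.add_apply, Pi.smul_apply, smul_eq_mul]
      calc s * a x + t * b x - (s * a x' + t * b x') = s * (a x - a x') + t * (b x - b x') := by ring
        _ = (s + t) * T x x' := by rw [h1, h2]; ring
        _ = T x x' := by rw [hst, one_mul])
    (fun w₀ => by
      obtain ⟨ξ, hξ⟩ := hps w₀
      refine ⟨fun x => (T x ξ : ℝ), ?_⟩
      filter_upwards [eventually_cl (show 0 < r / 4 by linarith) w₀] with w hw x x' hx hx'
      have h1 : Cl (r / 4 + r / 4) (p x) (p x') := hx.symm.trans hx'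
      have h2 : Cl (r / 4 + r / 4) (p ξ) (p x) := by rw [hξ]; exact hw.trans hx
      have h3 : Cl (r / 4 + r / 4) (p ξ) (p x') := by rw [hξ]; exact hw.trans hx'
      have h4 := hT x x' ξ (h1.mono (by linarith)) (h3.symm.mono (by linarith))
        (h2.symm.mono (by linarith))
      simp only [h4]
      push_cast
      ring)
  refine ⟨fun x => g (p x) x, ?_, ?_⟩
  · rw [continuous_iff_continuousAt]
    intro x₀
    have h1 : ContinuousAt (fun x => g (p x) x₀) x₀ := by
      have : Continuous fun x => g (p x) x₀ :=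
        (continuous_apply x₀).comp (g.continuous.comp hp)
      exact this.continuousAt
    refine h1.congr ?_
    have h2 : ∀ᶠ x in 𝓝 x₀, Cl (r / 4) (p x₀) (p x) :=
      hp.continuousAt.eventually (eventually_cl (show 0 < r / 4 by linarith) (p x₀))
    filter_upwards [h2, hloc x₀] with x hx hx'
    have h3 := hg (p x) x x₀ (Cl.refl (by linarith) _) hx.symm
    rw [hx'] at h3
    push_cast at h3
    linarith
  · intro x x' hxx
    have h3 := hg (p x) x x' (Cl.refl (by linarith) _) (by rw [hxx]; exact Cl.refl (by linarith) _)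
    rw [← h3]
    simp only [hxx]

theorem cocycle_fibre {X : Type*} [TopologicalSpace X] [CompactSpace X] [PreconnectedSpace X]
    {p : X → Circle} (hp : Continuous p) (hps : Function.Surjective p) (hlog : ¬ HasLog p)
    {r : ℝ} (hr : 0 < r) (T : X → X → ℤ)
    (hT : ∀ x₁ x₂ x₃, Cl r (p x₁) (p x₂) → Cl r (p x₂) (p x₃) → Cl r (p x₁) (p x₃) →
      T x₁ x₃ = T x₁ x₂ + T x₂ x₃)
    (hloc : ∀ x₀, ∀ᶠ x in 𝓝 x₀, T x x₀ = 0) :
    ∀ x x', p x = p x' → T x x' = 0 := by
  obtain ⟨R, hR, hR2⟩ := cocycle_real hp hps hr T hT hloc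
  have hq : IsQuotientMap p := hp.isClosedMap.isQuotientMap hp hps
  choose σ hσ using hps
  let μ : Circle → Circle := fun w => Circle.exp (2 * Real.pi * R (σ w))
  have hμ : ∀ x, μ (p x) = Circle.exp (2 * Real.pi * R x) := by
    intro x
    simp only [μ]
    have h1 := hR2 (σ (p x)) x (hσ _)
    have h2 : 2 * Real.pi * R (σ (p x)) = 2 * Real.pi * R x + 2 * Real.pi * (T (σ (p x)) x : ℤ) := by
      have : R (σ (p x)) = R x + T (σ (p x)) x := by linarith
      rw [this]; ring
    rw [h2, Circle.exp_add, Circle.exp_two_pi_mul_int, mul_one]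
  have hμc : Continuous μ := by
    rw [hq.continuous_iff]
    have : μ ∘ p = fun x => Circle.exp (2 * Real.pi * R x) := funext hμ
    rw [this]
    fun_prop
  obtain ⟨n, g, hg, hg2⟩ := degree_lemma hμc
  have hn : n = 0 := by
    by_contra hn
    apply hlog
    refine HasLog.of_zpow hp hn ⟨fun x => 2 * Real.pi * R x - g (p x), by fun_prop, fun x => ?_⟩
    rw [Circle.exp_sub, ← hμ, hg2]
    simp
  have h3 : ∀ x, Circle.exp (2 * Real.pi * R x - g (p x)) = 1 := by
    intro x
    rw [Circle.exp_sub, ← hμ, hg2, hn]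
    simp
  intro x x' hxx
  have h4 := const_of_exp_eq_one (h := fun x => 2 * Real.pi * R x - g (p x)) (by fun_prop) h3 x x'
  simp only [hxx] at h4
  have h5 : 2 * Real.pi * (R x - R x') = 0 := by linarith
  have h6 : R x - R x' = 0 := by
    rcases mul_eq_zero.mp h5 with h | h
    · linarith [Real.pi_pos]
    · exact h
  rw [hR2 x x' hxx] at h6
  exact_mod_cast h6

theorem cocycle_zero {X : Type*} [TopologicalSpace X] [CompactSpace X] [PreconnectedSpace X]
    {p : X → Circle} (hp : Continuous p) (hps : Function.Surjective p) (hlog : ¬ HasLog p)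
    {r : ℝ} (hr : 0 < r) (T : X → X → ℤ)
    (hT : ∀ x₁ x₂ x₃, Cl r (p x₁) (p x₂) → Cl r (p x₂) (p x₃) → Cl r (p x₁) (p x₃) →
      T x₁ x₃ = T x₁ x₂ + T x₂ x₃)
    (hloc : ∀ x₀, ∀ᶠ x in 𝓝 x₀, T x x₀ = 0) :
    ∀ x x', Cl r (p x) (p x') → T x x' = 0 := by
  have h0 := cocycle_fibre hp hps hlog hr T hT hloc
  intro x x' hxx
  obtain ⟨α, hα, hα2⟩ := hxx
  have hself : ∀ x, T x x = 0 := fun x => h0 x x rfl
  -- local constancy in terms of p
  have hU : ∀ x₀, ∀ᶠ w in 𝓝 (p x₀), ∀ z ∈ p ⁻¹' {w}, T z x₀ = 0 := by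
    intro x₀
    refine hp.isClosedMap.eventually_nhds_fiber (p := fun z => T z x₀ = 0) (p x₀) ?_
    intro x₁ hx₁
    have hx₁' : p x₁ = p x₀ := hx₁
    have h2 : ∀ᶠ x in 𝓝 x₁, Cl r (p x₁) (p x) :=
      hp.continuousAt.eventually (eventually_cl hr (p x₁))
    filter_upwards [hloc x₁, h2] with z hz hz2
    rw [hT z x₁ x₀ hz2.symm (by rw [hx₁']; exact Cl.refl hr _) (by rw [← hx₁']; exact hz2.symm),
      hz, h0 x₁ x₀ hx₁', add_zero]
  choose σ hσ using hps
  let z : unitInterval → X := fun s => σ (p x * Circle.exp (s * α))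
  have hz : ∀ s, p (z s) = p x * Circle.exp (s * α) := fun s => hσ _
  have hsα : ∀ s : unitInterval, |(s : ℝ) * α| < r := by
    intro s
    rw [abs_mul]
    have := s.2.1
    have h1 := s.2.2
    rw [abs_of_nonneg this]
    have : (s : ℝ) * |α| ≤ 1 * |α| := by
      apply mul_le_mul_of_nonneg_right h1 (abs_nonneg _)
    linarith
  have hsα2 : ∀ s t : unitInterval, |((t : ℝ) - s) * α| < r := by
    intro s t
    rw [abs_mul]
    have h1 := s.2.1
    have h2 := s.2.2
    have h3 := t.2.1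
    have h4 := t.2.2
    have h5 : |(t : ℝ) - s| ≤ 1 := by rw [abs_le]; constructor <;> linarith
    have : |(t : ℝ) - s| * |α| ≤ 1 * |α| := by
      apply mul_le_mul_of_nonneg_right h5 (abs_nonneg _)
    linarith
  have hcl1 : ∀ s, Cl r (p x) (p (z s)) := fun s => ⟨s * α, hsα s, hz s⟩
  have hcl2 : ∀ s t, Cl r (p (z s)) (p (z t)) := fun s t => ⟨(t - s) * α, hsα2 s t, by
    rw [hz, hz, mul_assoc, ← Circle.exp_add]
    congr 2
    ring⟩
  have hlc : IsLocallyConstant fun s => T x (z s) := by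
    rw [IsLocallyConstant.iff_eventually_eq]
    intro s₀
    have hc : ContinuousAt (fun s => p (z s)) s₀ := by
      have : (fun s => p (z s)) = fun s : unitInterval => p x * Circle.exp (s * α) := funext hz
      rw [this]
      fun_prop
    have h1 := hc.eventually (hU (z s₀))
    filter_upwards [h1] with s hs
    have h2 : T (z s) (z s₀) = 0 := hs (z s) rfl
    have h3 := hT (z s) (z s₀) (z s) (hcl2 _ _) (hcl2 _ _) (hcl2 _ _)
    rw [hself, h2] at h3
    have h4 := hT x (z s₀) (z s) (hcl1 _) (hcl2 _ _) (hcl1 _)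
    rw [h4]
    linarith
  have h5 : T x (z 1) = T x (z 0) := hlc.apply_eq_of_preconnectedSpace 1 0
  have h6 : T x (z 0) = 0 := h0 x (z 0) (by rw [hz]; simp)
  have h7 : p (z 1) = p x' := by rw [hz, hα2]; simp
  have h8 := hT x (z 1) x' (hcl1 1) (by rw [h7]; exact Cl.refl hr _) ⟨α, hα, hα2⟩
  rw [h8, h5, h6, h0 _ _ h7, add_zero]

end Pool.Agent.Lib.MP_8afd67_gt
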