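import Mathlib
import Pool.Agent.Lib.MP_8afd67_gt.Cocycle

set_option autoImplicit false

open Set Topology Filter

namespace Pool.Agent.Lib.MP_8afd67_gt

/-- A finite closed cover by small sets, no three of which share a point. -/
theorem exists_cover {X Y : Type} [MetricSpace X] [CompactSpace X] [MetricSpace Y]
    {f : X → Y} (hf : Continuous f) (hs : Function.Surjective f) (ho : IsOpenMap f)
    {p : X → Circle} (hp : Continuous p) (hps : Function.Surjective p)
    {r δ : ℝ} (hr : 0 < r) (hc : ∀ x x', Cl r (p x) (p x') → dist (f x) (f x') < δ) :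
    ∃ (ι : Type) (_ : Fintype ι) (Q : ι → Set Y), (∀ w, IsClosed (Q w)) ∧ (∀ y, ∃ w, y ∈ Q w) ∧
      (∀ w, ∀ y ∈ Q w, ∀ y' ∈ Q w, dist y y' < 4 * δ) ∧
      (∀ y w₁ w₂ w₃, y ∈ Q w₁ → y ∈ Q w₂ → y ∈ Q w₃ → w₁ = w₂ ∨ w₂ = w₃ ∨ w₁ = w₃) := by
  classical
  have hpi := Real.pi_pos
  obtain ⟨M, hM⟩ := exists_nat_gt (2 * Real.pi / r)
  have hM0 : (0 : ℝ) < M := lt_trans (by positivity) hM
  have hMr : 2 * Real.pi / M < r := by
    rw [div_lt_iff₀ hr] at hM
    rw [div_lt_iff₀ hM0]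
    linarith
  let s : ℕ → ℝ := fun i => 2 * Real.pi / M * i
  have hs0 : ∀ i, 0 ≤ s i := fun i => by positivity
  have hss : ∀ i, s (i + 1) = s i + 2 * Real.pi / M := fun i => by simp only [s]; push_cast; ring
  have hsm : ∀ i j, i ≤ j → s i ≤ s j := by
    intro i j hij
    simp only [s]
    apply mul_le_mul_of_nonneg_left _ (by positivity)
    exact_mod_cast hij
  have hslt : ∀ i j, i < j → s i < s j := by
    intro i j hij
    simp only [s]
    apply mul_lt_mul_of_pos_left _ (by positivity)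
    exact_mod_cast hij
  let D : Y → ℝ → Prop := fun y t => ∃ x, f x = y ∧ p x = Circle.exp t
  let A : ℕ → Set Y := fun i => {y | ∃ t ∈ Icc (s i) (s (i + 1)), D y t}
  let O : ℕ → Set Y := fun i => {y | ∃ t ∈ Ioo 0 (s i), D y t}
  let N : Set Y := {y | D y 0}
  have hAc : ∀ i, IsClosed (A i) := by
    intro i
    have : A i = f '' (p ⁻¹' (Circle.exp '' Icc (s i) (s (i + 1)))) := by
      ext y
      constructor
      · rintro ⟨t, ht, x, hx, hx2⟩
        exact ⟨x, ⟨t, ht, hx2.symm⟩, hx⟩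
      · rintro ⟨x, ⟨t, ht, ht2⟩, hx⟩
        exact ⟨t, ht, x, hx, ht2.symm⟩
    rw [this]
    refine (IsCompact.image ?_ hf).isClosed
    exact (((isCompact_Icc.image Circle.exp.continuous).isClosed).preimage hp).isCompact
  have hOo : ∀ i, IsOpen (O i) := by
    intro i
    have : O i = f '' (p ⁻¹' (Circle.exp '' Ioo 0 (s i))) := by
      ext y
      constructor
      · rintro ⟨t, ht, x, hx, hx2⟩
        exact ⟨x, ⟨t, ht, hx2.symm⟩, hx⟩
      · rintro ⟨x, ⟨t, ht, ht2⟩, hx⟩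
        exact ⟨t, ht, x, hx, ht2.symm⟩
    rw [this]
    exact ho _ ((isLocalHomeomorph_circleExp.isOpenMap _ isOpen_Ioo).preimage hp)
  have hNc : IsClosed N := by
    have : N = f '' (p ⁻¹' {1}) := by
      ext y
      constructor
      · rintro ⟨x, hx, hx2⟩
        exact ⟨x, by simpa using hx2, hx⟩
      · rintro ⟨x, hx, hx2⟩
        exact ⟨x, hx2, by simpa using hx⟩
    rw [this]
    exact ((isClosed_singleton.preimage hp).isCompact.image hf).isClosed
  let P : ℕ → Set Y := fun i => A i \ O i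
  have hPc : ∀ i, IsClosed (P i) := fun i => (hAc i).sdiff (hOo i)
  -- the key fact
  have hkey : ∀ y, y ∉ N → ∀ a c, y ∈ A a → y ∉ O c → c ≤ a + 1 := by
    rintro y hy a c ⟨t, ht, hD⟩ hc
    by_contra hac
    apply hc
    refine ⟨t, ⟨lt_of_le_of_ne (le_trans (hs0 a) ht.1) ?_, lt_of_le_of_lt ht.2 (hslt _ _ (by omega))⟩, hD⟩
    rintro rfl
    exact hy hD
  have hthree : ∀ y, y ∉ N → ∀ a b c, a < b → b < c → y ∈ P a → y ∈ P b → y ∈ P c → False := by
    intro y hy a b c hab hbc ha hb hc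
    have := hkey y hy a c ha.1 hc.2
    omega
  have hthree' : ∀ y, y ∉ N → ∀ a b c, y ∈ P a → y ∈ P b → y ∈ P c → a = b ∨ b = c ∨ a = c := by
    intro y hy a b c ha hb hc
    by_contra hcon
    push Not at hcon
    obtain ⟨h1, h2, h3⟩ := hcon
    rcases lt_or_gt_of_ne h1 with h1 | h1 <;> rcases lt_or_gt_of_ne h2 with h2 | h2 <;>
      rcases lt_or_gt_of_ne h3 with h3 | h3
    · exact hthree y hy a b c h1 h2 ha hb hc
    · omega
    · exact hthree y hy a c b h3 h2 ha hc hb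
    · exact hthree y hy c a b h3 h1 hc ha hb
    · exact hthree y hy b a c h1 h3 hb ha hc
    · exact hthree y hy b c a h2 h3 hb hc ha
    · omega
    · exact hthree y hy c b a h2 h1 hc hb ha
  have hidx : ∀ t : ℝ, 0 ≤ t → t < 2 * Real.pi → ∃ i < M, t ∈ Icc (s i) (s (i + 1)) := by
    intro t ht0 ht1
    have h1 : 0 ≤ t * M / (2 * Real.pi) := by positivity
    refine ⟨⌊t * M / (2 * Real.pi)⌋₊, ?_, ?_, ?_⟩
    · rw [Nat.floor_lt h1, div_lt_iff₀ (by positivity)]
      nlinarith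
    · have := Nat.floor_le h1
      simp only [s]
      rw [le_div_iff₀ (by positivity)] at this
      rw [div_mul_eq_mul_div, div_le_iff₀ hM0]
      linarith
    · have := (Nat.lt_floor_add_one (t * M / (2 * Real.pi))).le
      simp only [s]
      rw [div_le_iff₀ (by positivity)] at this
      rw [div_mul_eq_mul_div, le_div_iff₀ hM0]
      push_cast
      linarith
  have hcov : ∀ y, y ∉ N → ∃ i < M, y ∈ P i := by
    intro y hy
    have hex : ∃ i, i < M ∧ y ∈ A i := by
      obtain ⟨x, hx⟩ := hs y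
      by_cases h0 : 0 ≤ Complex.arg (p x)
      · obtain ⟨i, hi, hi2⟩ := hidx _ h0 (by linarith [Complex.arg_le_pi (p x)])
        exact ⟨i, hi, _, hi2, x, hx, (Circle.exp_arg _).symm⟩
      · obtain ⟨i, hi, hi2⟩ := hidx (Complex.arg (p x) + 2 * Real.pi)
          (by linarith [Complex.neg_pi_lt_arg (p x)]) (by linarith)
        exact ⟨i, hi, _, hi2, x, hx, by rw [Circle.exp_add_two_pi, Circle.exp_arg]⟩
    have hmin := Nat.find_spec hex
    refine ⟨Nat.find hex, hmin.1, hmin.2, ?_⟩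
    rintro ⟨t, ht, hD⟩
    have hsM : s (Nat.find hex) < 2 * Real.pi := by
      have : s M = 2 * Real.pi := by simp only [s]; field_simp
      rw [← this]
      exact hslt _ _ hmin.1
    obtain ⟨j, hj, hj2⟩ := hidx t ht.1.le (by linarith [ht.2])
    have hjlt : j < Nat.find hex := by
      by_contra hcon
      have h1 := hsm _ _ (not_lt.mp hcon)
      have h2 := hj2.1
      linarith [ht.2]
    exact Nat.find_min hex hjlt ⟨hj, t, hj2, hD⟩
  have hAd : ∀ i, ∀ y ∈ A i, ∀ y' ∈ A i, dist y y' < δ := by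
    rintro i y ⟨t, ht, x, rfl, hx2⟩ y' ⟨t', ht', x', rfl, hx2'⟩
    apply hc
    refine ⟨t' - t, ?_, ?_⟩
    · rw [abs_lt]
      have := hss i
      constructor <;> linarith [ht.1, ht.2, ht'.1, ht'.2]
    · rw [hx2, hx2', ← Circle.exp_add]
      congr 1
      ring
  have hNd : ∀ y ∈ N, ∀ y' ∈ N, dist y y' < δ := by
    rintro y ⟨x, rfl, hx2⟩ y' ⟨x', rfl, hx2'⟩
    apply hc
    rw [hx2, hx2']
    exact Cl.refl hr _
  obtain ⟨x₀, hx₀⟩ := hps 1
  have hy₀ : f x₀ ∈ N := ⟨x₀, rfl, by simpa using hx₀⟩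
  have hδ : 0 < δ := lt_of_le_of_lt dist_nonneg (hNd _ hy₀ _ hy₀)
  let star : ℕ → Prop := fun i => (A i ∩ N).Nonempty
  let Q : Option {i : Fin M // ¬ star i} → Set Y := fun w =>
    match w with
    | none => N ∪ ⋃ i ∈ {i : Fin M | star i}, P i
    | some i => P i.1
  have hQ0 : ∀ y ∈ Q none, dist y (f x₀) < 2 * δ := by
    intro y hy
    rcases hy with hy | hy
    · linarith [hNd y hy _ hy₀]
    · simp only [mem_iUnion] at hy
      obtain ⟨i, hi, hi2⟩ := hy
      obtain ⟨n, hn1, hn2⟩ := hi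
      have h1 := hAd i y hi2.1 n hn1
      have h2 := hNd n hn2 _ hy₀
      linarith [dist_triangle y n (f x₀)]
  refine ⟨Option {i : Fin M // ¬ star i}, inferInstance, Q, ?_, ?_, ?_, ?_⟩
  · rintro (_ | w)
    · refine hNc.union ?_
      exact Set.Finite.isClosed_biUnion (Set.toFinite _) (fun i _ => hPc i)
    · exact hPc _
  · intro y
    by_cases hy : y ∈ N
    · exact ⟨none, Or.inl hy⟩
    · obtain ⟨i, hi, hi2⟩ := hcov y hy
      by_cases hst : star i
      · refine ⟨none, Or.inr ?_⟩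
        simp only [mem_iUnion]
        exact ⟨⟨i, hi⟩, hst, hi2⟩
      · exact ⟨some ⟨⟨i, hi⟩, hst⟩, hi2⟩
  · rintro (_ | w) y hy y' hy'
    · have h1 := hQ0 y hy
      have h2 := hQ0 y' hy'
      linarith [dist_triangle_right y y' (f x₀)]
    · linarith [hAd _ y hy.1 y' hy'.1]
  · intro y w₁ w₂ w₃ h₁ h₂ h₃
    -- nonstar pieces avoid N
    have hns : ∀ w : {i : Fin M // ¬ star i}, y ∈ Q (some w) → y ∉ N := by
      intro w hw hN
      exact w.2 ⟨y, hw.1, hN⟩
    have hnone : y ∉ N → y ∈ Q none → ∃ i : Fin M, star i ∧ y ∈ P i := by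
      intro hy h
      rcases h with h | h
      · exact absurd h hy
      · simp only [mem_iUnion] at h
        obtain ⟨i, hi, hi2⟩ := h
        exact ⟨i, hi, hi2⟩
    have htwo : ∀ a b : {i : Fin M // ¬ star i}, y ∈ Q none → y ∈ Q (some a) → y ∈ Q (some b) →
        a = b := by
      intro a b h0 ha hb
      obtain ⟨i, hi, hi2⟩ := hnone (hns a ha) h0
      rcases hthree' y (hns a ha) i a.1 b.1 hi2 ha hb with h | h | h
      · exact absurd (h ▸ hi) a.2
      · exact Subtype.ext (Fin.ext h)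
      · exact absurd (h ▸ hi) b.2
    rcases w₁ with _ | w₁ <;> rcases w₂ with _ | w₂ <;> rcases w₃ with _ | w₃
    · left; rfl
    · left; rfl
    · right; right; rfl
    · right; left; rw [htwo w₂ w₃ h₁ h₂ h₃]
    · right; left; rfl
    · right; right; rw [htwo w₁ w₃ h₂ h₁ h₃]
    · left; rw [htwo w₁ w₂ h₃ h₁ h₂]
    · rcases hthree' y (hns w₁ h₁) w₁.1 w₂.1 w₃.1 h₁ h₂ h₃ with h | h | h
      · left; rw [Subtype.ext (Fin.ext h)]
      · right; left; rw [Subtype.ext (Fin.ext h)]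
      · right; right; rw [Subtype.ext (Fin.ext h)]

end Pool.Agent.Lib.MP_8afd67_gt
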