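import Mathlib
import Pool.Agent.Lib.MP_8afd67_gt.Cover

set_option autoImplicit false

open Set Topology Filter

namespace Pool.Agent.Lib.MP_8afd67_gt

/-- Good covers of `Y`: small closed sets such that points of `X` with close values of `p` meet at
most two of them. -/
structure IsGC {X Y : Type} [MetricSpace Y] (f : X → Y) (p : X → Circle) (r δ : ℝ) {ι : Type}
    (Q : ι → Set Y) : Prop where
  closed : ∀ w, IsClosed (Q w)
  nonempty : ∀ w, (Q w).Nonempty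
  cover : ∀ y, ∃ w, y ∈ Q w
  small : ∀ w, ∀ y ∈ Q w, ∀ y' ∈ Q w, dist y y' < δ
  triple : ∀ x₁ x₂ x₃, Cl r (p x₁) (p x₂) → Cl r (p x₂) (p x₃) → Cl r (p x₁) (p x₃) →
    ∀ w₁ w₂ w₃, f x₁ ∈ Q w₁ → f x₂ ∈ Q w₂ → f x₃ ∈ Q w₃ → w₁ = w₂ ∨ w₂ = w₃ ∨ w₁ = w₃

/-- Lebesgue number for triples. -/
theorem triple_number {Y : Type} [MetricSpace Y] [CompactSpace Y] {ι : Type} [Fintype ι]
    {Q : ι → Set Y} (hQ : ∀ w, IsClosed (Q w))
    (h3 : ∀ y w₁ w₂ w₃, y ∈ Q w₁ → y ∈ Q w₂ → y ∈ Q w₃ → w₁ = w₂ ∨ w₂ = w₃ ∨ w₁ = w₃) :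
    ∃ ε > 0, ∀ y₁ y₂ y₃, dist y₁ y₂ < ε → dist y₁ y₃ < ε →
      ∀ w₁ w₂ w₃, y₁ ∈ Q w₁ → y₂ ∈ Q w₂ → y₃ ∈ Q w₃ → w₁ = w₂ ∨ w₂ = w₃ ∨ w₁ = w₃ := by
  classical
  let U : Y → Set Y := fun y => (⋃ w ∈ {w | y ∉ Q w}, Q w)ᶜ
  have hU : ∀ y, IsOpen (U y) := by
    intro y
    rw [isOpen_compl_iff]
    exact Set.Finite.isClosed_biUnion (Set.toFinite _) (fun i _ => hQ i)
  have hUm : ∀ y y' w, y' ∈ U y → y' ∈ Q w → y ∈ Q w := by
    intro y y' w h1 h2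
    by_contra h3
    apply h1
    simp only [mem_iUnion]
    exact ⟨w, h3, h2⟩
  have hself : ∀ y, y ∈ U y := by
    intro y h
    simp only [mem_iUnion] at h
    obtain ⟨w, h1, h2⟩ := h
    exact h1 h2
  obtain ⟨ε, hε, h⟩ := lebesgue_number_lemma_of_metric (s := (univ : Set Y)) isCompact_univ hU
    (fun y _ => mem_iUnion.mpr ⟨y, hself y⟩)
  refine ⟨ε, hε, fun y₁ y₂ y₃ h12 h13 w₁ w₂ w₃ h1 h2 h3' => ?_⟩
  obtain ⟨y, hy⟩ := h y₁ (mem_univ _)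
  have e1 := hUm y y₁ w₁ (hy (Metric.mem_ball_self hε)) h1
  have e2 := hUm y y₂ w₂ (hy (by rw [Metric.mem_ball, dist_comm]; exact h12)) h2
  have e3 := hUm y y₃ w₃ (hy (by rw [Metric.mem_ball, dist_comm]; exact h13)) h3'
  exact h3 y _ _ _ e1 e2 e3

/-- Boundedness of the number of pieces of a good cover. -/
theorem gc_bounded {X Y : Type} [MetricSpace Y] {f : X → Y}
    (hs : Function.Surjective f) {p : X → Circle} {r δ : ℝ} (hr : 0 < r) :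
    ∃ B : ℕ, ∀ (ι : Type) (_ : Fintype ι) (Q : ι → Set Y), IsGC f p r δ Q → Fintype.card ι ≤ B := by
  classical
  have hcomp : ∃ t : Finset Circle, ∀ w : Circle, ∃ c ∈ t, Cl (r / 2) c w := by
    obtain ⟨t, ht⟩ := isCompact_univ.elim_nhds_subcover (fun c : Circle => {w | Cl (r / 2) c w})
      (fun c _ => eventually_cl (by linarith) c)
    refine ⟨t, fun w => ?_⟩
    have := ht.2 (mem_univ w)
    simp only [mem_iUnion] at this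
    obtain ⟨c, hc, hc2⟩ := this
    exact ⟨c, hc, hc2⟩
  obtain ⟨t, ht⟩ := hcomp
  refine ⟨2 * t.card, fun ι _ Q hQ => ?_⟩
  by_contra hcon
  push Not at hcon
  have hx : ∀ w : ι, ∃ x, f x ∈ Q w := by
    intro w
    obtain ⟨y, hy⟩ := hQ.nonempty w
    obtain ⟨x, rfl⟩ := hs y
    exact ⟨x, hy⟩
  choose ξ hξ using hx
  choose c hc1 hc2 using ht
  obtain ⟨b, hb, hb2⟩ := Finset.exists_lt_card_fiber_of_mul_lt_card_of_maps_to
    (s := (Finset.univ : Finset ι)) (t := t) (f := fun w => c (p (ξ w))) (n := 2)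
    (fun w _ => hc1 _) (by rw [Finset.card_univ]; linarith)
  rw [Finset.two_lt_card] at hb2
  obtain ⟨w₁, h1, w₂, h2, w₃, h3, h12, h13, h23⟩ := hb2
  simp only [Finset.mem_filter, Finset.mem_univ, true_and] at h1 h2 h3
  have e1 := hc2 (p (ξ w₁))
  have e2 := hc2 (p (ξ w₂))
  have e3 := hc2 (p (ξ w₃))
  rw [h1] at e1
  rw [h2] at e2
  rw [h3] at e3
  have hh : r / 2 + r / 2 ≤ r := by linarith
  rcases hQ.triple (ξ w₁) (ξ w₂) (ξ w₃) ((e1.symm.trans e2).mono hh) ((e2.symm.trans e3).mono hh)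
    ((e1.symm.trans e3).mono hh) w₁ w₂ w₃ (hξ _) (hξ _) (hξ _) with h | h | h
  · exact h12 h
  · exact h23 h
  · exact h13 h

/-- Existence of a maximal good cover. -/
theorem gc_maximal {X Y : Type} [MetricSpace Y] {f : X → Y}
    (hs : Function.Surjective f) {p : X → Circle} {r δ : ℝ} (hr : 0 < r)
    (hex : ∃ (ι : Type) (_ : Fintype ι) (Q : ι → Set Y), IsGC f p r δ Q) :
    ∃ (ι : Type) (_ : Fintype ι) (Q : ι → Set Y), IsGC f p r δ Q ∧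
      ∀ (ι' : Type) (_ : Fintype ι') (Q' : ι' → Set Y), IsGC f p r δ Q' →
        Fintype.card ι' ≤ Fintype.card ι := by
  classical
  obtain ⟨B, hB⟩ := gc_bounded (f := f) (p := p) (δ := δ) hs hr
  let S : Set ℕ := {n | ∃ (ι : Type) (_ : Fintype ι) (Q : ι → Set Y), IsGC f p r δ Q ∧
    Fintype.card ι = n}
  have hSne : S.Nonempty := by
    obtain ⟨ι, h, Q, hQ⟩ := hex
    exact ⟨_, ι, h, Q, hQ, rfl⟩
  have hSb : BddAbove S := ⟨B, by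
    rintro n ⟨ι, h, Q, hQ, rfl⟩
    exact hB ι h Q hQ⟩
  obtain ⟨ι, h, Q, hQ, hc⟩ := Nat.sSup_mem hSne hSb
  refine ⟨ι, h, Q, hQ, fun ι' h' Q' hQ' => ?_⟩
  rw [hc]
  exact le_csSup hSb ⟨ι', h', Q', hQ', rfl⟩

/-- Existence of a good cover. -/
theorem gc_exists {X Y : Type} [MetricSpace Y]
    {f : X → Y} {p : X → Circle} {r δ ε : ℝ} 
    (hc : ∀ x x', Cl r (p x) (p x') → dist (f x) (f x') < ε)
    {ι : Type} [Fintype ι] {Q : ι → Set Y} (hQ : ∀ w, IsClosed (Q w)) (hcov : ∀ y, ∃ w, y ∈ Q w)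
    (hsm : ∀ w, ∀ y ∈ Q w, ∀ y' ∈ Q w, dist y y' < δ)
    (h3 : ∀ y₁ y₂ y₃, dist y₁ y₂ < ε → dist y₁ y₃ < ε →
      ∀ w₁ w₂ w₃, y₁ ∈ Q w₁ → y₂ ∈ Q w₂ → y₃ ∈ Q w₃ → w₁ = w₂ ∨ w₂ = w₃ ∨ w₁ = w₃) :
    ∃ (ι : Type) (_ : Fintype ι) (Q : ι → Set Y), IsGC f p r δ Q := by
  classical
  refine ⟨{w : ι // (Q w).Nonempty}, inferInstance, fun w => Q w.1, ?_⟩
  refine ⟨fun w => hQ _, fun w => w.2, fun y => ?_, fun w => hsm _, ?_⟩
  · obtain ⟨w, hw⟩ := hcov y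
    exact ⟨⟨w, y, hw⟩, hw⟩
  · intro x₁ x₂ x₃ h12 h23 h13 w₁ w₂ w₃ h1 h2 h3'
    rcases h3 _ _ _ (hc _ _ h12) (hc _ _ h13) _ _ _ h1 h2 h3' with h | h | h
    · left; exact Subtype.ext h
    · right; left; exact Subtype.ext h
    · right; right; exact Subtype.ext h

end Pool.Agent.Lib.MP_8afd67_gt
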