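import Mathlib
import Pool.Agent.Lib.MP_8afd67_gt.GoodCover

set_option autoImplicit false

open Set Topology Filter

namespace Pool.Agent.Lib.MP_8afd67_gt

/-- Elementary 1-cochain supported on one edge. -/
def io {ι : Type} [DecidableEq ι] (w1 w2 : ι) (u v : ι) : ℤ :=
  if u = w1 ∧ v = w2 then 1 else if u = w2 ∧ v = w1 then -1 else 0

lemma io_self {ι : Type} [DecidableEq ι] {w1 w2 : ι} (h : w1 ≠ w2) (u : ι) : io w1 w2 u u = 0 := by
  unfold io
  split_ifs with h1 h2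
  · exact absurd (h1.1.symm.trans h1.2) h
  · exact absurd (h2.2.symm.trans h2.1) h
  · rfl

lemma io_symm {ι : Type} [DecidableEq ι] {w1 w2 : ι} (h : w1 ≠ w2) (u v : ι) :
    io w1 w2 u v = - io w1 w2 v u := by
  unfold io
  split_ifs with h1 h2 h3 h4 h5 h6 <;> simp_all

lemma io_add {ι : Type} [DecidableEq ι] {w1 w2 : ι} (h : w1 ≠ w2) (u v w : ι)
    (h3 : u = v ∨ v = w ∨ u = w) : io w1 w2 u w = io w1 w2 u v + io w1 w2 v w := by
  rcases h3 with rfl | rfl | rfl
  · rw [io_self h]; ring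
  · rw [io_self h]; ring
  · rw [io_self h, io_symm h u v]; ring

/-- The branch functions obtained from the logarithm of a circle valued map wrapping across one
edge. -/
theorem branch_functions {Y : Type} [MetricSpace Y] [CompactSpace Y]
    (hY : ∀ q : Y → Circle, Continuous q → HasLog q)
    {ι : Type} [Fintype ι] [DecidableEq ι] {Q : ι → Set Y} (hQ : ∀ w, IsClosed (Q w))
    (hcov : ∀ y, ∃ w, y ∈ Q w)
    (h3 : ∀ y w₁ w₂ w₃, y ∈ Q w₁ → y ∈ Q w₂ → y ∈ Q w₃ → w₁ = w₂ ∨ w₂ = w₃ ∨ w₁ = w₃)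
    {w1 w2 : ι} (hw : w1 ≠ w2) :
    ∃ (k : ι → Y → ℤ) (B : ℕ), (∀ w n, IsClosed {y | y ∈ Q w ∧ k w y = n}) ∧
      (∀ w w' y, y ∈ Q w → y ∈ Q w' → k w' y = k w y + io w1 w2 w w') ∧
      (∀ w y, y ∈ Q w → |k w y| ≤ B) := by
  have hpi := Real.pi_pos
  let E : Set Y := ⋃ w ∈ {w : ι | w ≠ w1 ∧ w ≠ w2}, Q w
  have hE : IsClosed E := Set.Finite.isClosed_biUnion (Set.toFinite _) (fun i _ => hQ i)
  have hdisj : Disjoint E (Q w1 ∩ Q w2) := by
    rw [Set.disjoint_left]
    rintro y hy ⟨h1, h2⟩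
    simp only [E, mem_iUnion] at hy
    obtain ⟨w, ⟨hw1, hw2⟩, hy⟩ := hy
    rcases h3 y w w1 w2 hy h1 h2 with h | h | h
    · exact hw1 h
    · exact hw h
    · exact hw2 h
  obtain ⟨θ, hθE, hθC, hθ01⟩ := exists_continuous_zero_one_of_isClosed hE
    ((hQ w1).inter (hQ w2)) hdisj
  let B : Set Y := ⋃ w ∈ {w : ι | w ≠ w1}, Q w
  have hB : IsClosed B := Set.Finite.isClosed_biUnion (Set.toFinite _) (fun i _ => hQ i)
  have hAB : Q w1 ∪ B = univ := by
    ext y
    simp only [mem_univ, iff_true]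
    obtain ⟨w, hy⟩ := hcov y
    by_cases h : w = w1
    · left; rw [← h]; exact hy
    · right
      simp only [B, mem_iUnion]
      exact ⟨w, h, hy⟩
  have hint : ∀ y, y ∈ Q w1 → ∀ w, w ≠ w1 → y ∈ Q w →
      (w = w2 ∧ θ y = 1) ∨ (w ≠ w2 ∧ θ y = 0) := by
    intro y hy w hww hyw
    by_cases h : w = w2
    · left
      refine ⟨h, ?_⟩
      subst h
      exact hθC ⟨hy, hyw⟩
    · right
      refine ⟨h, ?_⟩
      apply hθE
      simp only [E, mem_iUnion]
      exact ⟨w, ⟨hww, h⟩, hyw⟩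
  classical
  let ψ : Y → Circle := fun y => if y ∈ Q w1 then Circle.exp (Real.pi * θ y) else
    Circle.exp (-(Real.pi * θ y))
  have hψ1 : ∀ y ∈ Q w1, ψ y = Circle.exp (Real.pi * θ y) := fun y hy => if_pos hy
  have hψ2 : ∀ w, w ≠ w1 → ∀ y ∈ Q w, ψ y = Circle.exp (-(Real.pi * θ y)) := by
    intro w hww y hyw
    by_cases hy : y ∈ Q w1
    · rw [hψ1 y hy]
      rcases hint y hy w hww hyw with ⟨-, h⟩ | ⟨-, h⟩
      · rw [h, mul_one, exp_pi_eq, Circle.exp_neg, exp_pi_eq]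
        ext; simp
      · rw [h]; simp
    · exact if_neg hy
  have hψc : Continuous ψ := by
    rw [← continuousOn_univ, ← hAB]
    refine ContinuousOn.union_of_isClosed ?_ ?_ (hQ w1) hB
    · refine ContinuousOn.congr (f := fun y => Circle.exp (Real.pi * θ y)) ?_ hψ1
      fun_prop
    · refine ContinuousOn.congr (f := fun y => Circle.exp (-(Real.pi * θ y))) ?_ ?_
      · fun_prop
      · intro y hy
        simp only [B, mem_iUnion] at hy
        obtain ⟨w, h, hy⟩ := hy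
        exact hψ2 w h y hy
  obtain ⟨Ψ, hΨ, hΨ2⟩ := hY ψ hψc
  let σ : ι → ℝ := fun w => if w = w1 then 1 else -1
  have hσ1 : σ w1 = 1 := if_pos rfl
  have hσ2 : ∀ w, w ≠ w1 → σ w = -1 := fun w h => if_neg h
  have hex : ∀ w y, ∃ n : ℤ, y ∈ Q w → Ψ y - σ w * (Real.pi * θ y) = n * (2 * Real.pi) := by
    intro w y
    by_cases hy : y ∈ Q w
    · have h1 : Circle.exp (Ψ y - σ w * (Real.pi * θ y)) = 1 := by
        rw [Circle.exp_sub, ← hΨ2]
        by_cases h : w = w1
        · subst h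
          rw [hψ1 y hy, hσ1, one_mul, div_self']
        · rw [hψ2 w h y hy, hσ2 w h]
          simp
      obtain ⟨n, hn⟩ := Circle.exp_eq_one.mp h1
      exact ⟨n, fun _ => hn⟩
    · exact ⟨0, fun h => absurd h hy⟩
  choose k hk using hex
  obtain ⟨B0, hB0⟩ : ∃ B0 : ℝ, ∀ y, |Ψ y| ≤ B0 := by
    rcases isEmpty_or_nonempty Y with hYe | hYn
    · exact ⟨0, fun y => (hYe.false y).elim⟩
    · obtain ⟨y, -, hy⟩ := isCompact_univ.exists_isMaxOn (univ_nonempty (α := Y))
        (f := fun y => |Ψ y|) (by fun_prop)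
      exact ⟨|Ψ y|, fun y' => hy (mem_univ y')⟩
  obtain ⟨B1, hB1⟩ := exists_nat_gt (B0 + Real.pi)
  refine ⟨k, B1, ?_, ?_, ?_⟩
  · intro w n
    have : {y | y ∈ Q w ∧ k w y = n} =
        Q w ∩ {y | Ψ y - σ w * (Real.pi * θ y) = n * (2 * Real.pi)} := by
      ext y
      constructor
      · rintro ⟨h1, h2⟩
        refine ⟨h1, ?_⟩
        rw [mem_ofPred_eq, hk w y h1, h2]
      · rintro ⟨h1, h2⟩
        refine ⟨h1, ?_⟩
        rw [mem_ofPred_eq, hk w y h1] at h2
        have h3 := mul_right_cancel₀ (by positivity) h2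
        exact_mod_cast h3
    rw [this]
    exact (hQ w).inter (isClosed_eq (by fun_prop) continuous_const)
  · intro w w' y hy hy'
    have e1 := hk w y hy
    have e2 := hk w' y hy'
    have e3 : ((k w' y : ℝ) - k w y - io w1 w2 w w') * (2 * Real.pi) = 0 := by
      have e4 : (σ w - σ w') * (Real.pi * θ y) = io w1 w2 w w' * (2 * Real.pi) := by
        by_cases h : w = w1
        · by_cases h' : w' = w1
          · rw [h, h', io_self hw]; simp
          · rw [h, hσ1, hσ2 w' h']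
            rw [h] at hy
            rcases hint y hy w' h' hy' with ⟨h4, h5⟩ | ⟨h4, h5⟩
            · rw [h4, h5]; simp [io]; ring
            · rw [h5]; simp [io, h4, h']
        · by_cases h' : w' = w1
          · rw [h', hσ1, hσ2 w h]
            rw [h'] at hy'
            rcases hint y hy' w h hy with ⟨h4, h5⟩ | ⟨h4, h5⟩
            · rw [h4, h5, io_symm hw]; simp [io]; ring
            · rw [h5]; simp [io, h4, h]
          · rw [hσ2 w h, hσ2 w' h']
            simp [io, h, h']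
      linarith
    have e5 : ((k w' y : ℝ) - k w y - io w1 w2 w w') = 0 := by
      rcases mul_eq_zero.mp e3 with h | h
      · exact h
      · linarith
    have e6 : k w' y - k w y - io w1 w2 w w' = 0 := by exact_mod_cast e5
    linarith
  · intro w y hy
    have e1 := hk w y hy
    have e2 : |σ w * (Real.pi * θ y)| ≤ Real.pi := by
      have h1 : |σ w| = 1 := by
        by_cases h : w = w1
        · rw [h, hσ1]; simp
        · rw [hσ2 w h]; simp
      have h2 := hθ01 y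
      rw [abs_mul, h1, one_mul, abs_mul, abs_of_pos hpi, abs_of_nonneg h2.1]
      nlinarith [h2.2]
    have e3 : |(k w y : ℝ)| * (2 * Real.pi) ≤ B0 + Real.pi := by
      have h1 : |(k w y : ℝ) * (2 * Real.pi)| ≤ B0 + Real.pi := by
        rw [← e1]
        calc |Ψ y - σ w * (Real.pi * θ y)| ≤ |Ψ y| + |σ w * (Real.pi * θ y)| := abs_sub _ _
          _ ≤ B0 + Real.pi := add_le_add (hB0 y) e2
      rwa [abs_mul, abs_of_pos (show (0:ℝ) < 2 * Real.pi by positivity)] at h1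
    have e4 : |(k w y : ℝ)| ≤ B1 := by
      have h1 : |(k w y : ℝ)| ≤ |(k w y : ℝ)| * (2 * Real.pi) := by
        apply le_mul_of_one_le_right (abs_nonneg _)
        linarith [Real.pi_gt_three]
      linarith
    exact_mod_cast e4

/-- The branch functions agree along close points of `X`. -/
theorem branch_close {X Y : Type} [MetricSpace X] [CompactSpace X] [ConnectedSpace X]
    [MetricSpace Y] {f : X → Y} (hf : Continuous f)
    {p : X → Circle} (hp : Continuous p) (hps : Function.Surjective p) (hlog : ¬ HasLog p)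
    {r δ : ℝ} (hr : 0 < r) {ι : Type} [Fintype ι] [DecidableEq ι] {Q : ι → Set Y}
    (hQ : IsGC f p r δ Q) {w1 w2 : ι} (hw : w1 ≠ w2) (k : ι → Y → ℤ)
    (hk1 : ∀ w n, IsClosed {y | y ∈ Q w ∧ k w y = n})
    (hk2 : ∀ w w' y, y ∈ Q w → y ∈ Q w' → k w' y = k w y + io w1 w2 w w')
    {B : ℕ} (hk3 : ∀ w y, y ∈ Q w → |k w y| ≤ B) :
    ∀ x x', Cl r (p x) (p x') → ∀ w, f x ∈ Q w → f x' ∈ Q w → k w (f x) = k w (f x') := by
  choose pc hpc using hQ.cover
  let T : X → X → ℤ := fun x x' => k (pc (f x)) (f x) - k (pc (f x')) (f x') -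
    io w1 w2 (pc (f x')) (pc (f x))
  have hT : ∀ x₁ x₂ x₃, Cl r (p x₁) (p x₂) → Cl r (p x₂) (p x₃) → Cl r (p x₁) (p x₃) →
      T x₁ x₃ = T x₁ x₂ + T x₂ x₃ := by
    intro x₁ x₂ x₃ h12 h23 h13
    have h := hQ.triple x₁ x₂ x₃ h12 h23 h13 _ _ _ (hpc _) (hpc _) (hpc _)
    have h' : pc (f x₃) = pc (f x₂) ∨ pc (f x₂) = pc (f x₁) ∨ pc (f x₃) = pc (f x₁) := by
      rcases h with h | h | h
      · right; left; exact h.symm
      · left; exact h.symm
      · right; right; exact h.symm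
    simp only [T]
    rw [io_add hw (pc (f x₃)) (pc (f x₂)) (pc (f x₁)) h']
    ring
  have hloc : ∀ x₀, ∀ᶠ x in 𝓝 x₀, T x x₀ = 0 := by
    intro x₀
    -- near y₀, pieces and branch values persist
    have hnear : ∀ᶠ y in 𝓝 (f x₀), ∀ w, y ∈ Q w → f x₀ ∈ Q w ∧ k w y = k w (f x₀) := by
      rw [Filter.eventually_all]
      intro w
      have h1 : ∀ᶠ y in 𝓝 (f x₀), ∀ n ∈ (Finset.Icc (-(B : ℤ)) B : Finset ℤ),
          (y ∈ Q w ∧ k w y = n) → (f x₀ ∈ Q w ∧ k w (f x₀) = n) := by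
        rw [Filter.eventually_all_finset]
        intro n _
        by_cases h : f x₀ ∈ Q w ∧ k w (f x₀) = n
        · exact Filter.Eventually.of_forall fun y _ => h
        · have h2 : ∀ᶠ y in 𝓝 (f x₀), y ∈ {y | y ∈ Q w ∧ k w y = n}ᶜ :=
            (hk1 w n).isOpen_compl.mem_nhds h
          filter_upwards [h2] with y hy hy2
          exact absurd hy2 hy
      filter_upwards [h1] with y hy hyw
      have h3 := abs_le.mp (hk3 w y hyw)
      have h4 := hy (k w y) (by rw [Finset.mem_Icc]; exact h3) ⟨hyw, rfl⟩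
      exact ⟨h4.1, h4.2.symm⟩
    have h1 := hf.continuousAt.eventually hnear
    filter_upwards [h1] with x hx
    obtain ⟨h2, h3⟩ := hx (pc (f x)) (hpc _)
    simp only [T]
    rw [h3, hk2 (pc (f x₀)) (pc (f x)) (f x₀) (hpc _) h2]
    ring
  have h0 := cocycle_zero hp hps hlog hr T hT hloc
  intro x x' hxx w hx hx'
  have h1 := h0 x x' hxx
  simp only [T] at h1
  have h2 := hk2 (pc (f x)) w (f x) (hpc _) hx
  have h3 := hk2 (pc (f x')) w (f x') (hpc _) hx'
  rw [h2, h3]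
  have h4 := hQ.triple x' x x' hxx.symm hxx (Cl.refl hr _) (pc (f x')) (pc (f x)) w (hpc _) (hpc _) hx'
  have h5 : io w1 w2 (pc (f x')) w = io w1 w2 (pc (f x')) (pc (f x)) + io w1 w2 (pc (f x)) w :=
    io_add hw _ _ _ h4
  rw [h5]
  linarith

/-- In a maximal good cover branch functions are constant on pieces. -/
theorem maximal_const {X Y : Type} [MetricSpace X] [CompactSpace X] [ConnectedSpace X]
    [MetricSpace Y] [CompactSpace Y] (hY : ∀ q : Y → Circle, Continuous q → HasLog q)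
    {f : X → Y} (hf : Continuous f) (hs : Function.Surjective f)
    {p : X → Circle} (hp : Continuous p) (hps : Function.Surjective p) (hlog : ¬ HasLog p)
    {r δ : ℝ} (hr : 0 < r) {ι : Type} [Fintype ι] [DecidableEq ι] {Q : ι → Set Y}
    (hQ : IsGC f p r δ Q)
    (hmax : ∀ (ι' : Type) (_ : Fintype ι') (Q' : ι' → Set Y), IsGC f p r δ Q' →
        Fintype.card ι' ≤ Fintype.card ι) {w1 w2 : ι} (hw : w1 ≠ w2) :
    ∃ κ : ι → ℤ, ∀ w w', (Q w ∩ Q w').Nonempty → κ w' = κ w + io w1 w2 w w' := by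
  classical
  have h3 : ∀ y w₁ w₂ w₃, y ∈ Q w₁ → y ∈ Q w₂ → y ∈ Q w₃ → w₁ = w₂ ∨ w₂ = w₃ ∨ w₁ = w₃ := by
    intro y w₁ w₂ w₃ h1 h2 h3
    obtain ⟨x, rfl⟩ := hs y
    exact hQ.triple x x x (Cl.refl hr _) (Cl.refl hr _) (Cl.refl hr _) _ _ _ h1 h2 h3
  obtain ⟨k, B, hk1, hk2, hk3⟩ := branch_functions hY hQ.closed hQ.cover h3 hw
  have hclose := branch_close hf hp hps hlog hr hQ hw k hk1 hk2 hk3
  let Q0 : ι × (Finset.Icc (-(B : ℤ)) B : Finset ℤ) → Set Y :=
    fun q => {y | y ∈ Q q.1 ∧ k q.1 y = q.2}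
  let ι' : Type := {q : ι × (Finset.Icc (-(B : ℤ)) B : Finset ℤ) // (Q0 q).Nonempty}
  have hQ' : IsGC f p r δ (fun q : ι' => Q0 q.1) := by
    refine ⟨fun q => hk1 _ _, fun q => q.2, fun y => ?_, fun q y hy y' hy' => ?_, ?_⟩
    · obtain ⟨w, hy⟩ := hQ.cover y
      have h1 := abs_le.mp (hk3 w y hy)
      exact ⟨⟨⟨w, ⟨k w y, by rw [Finset.mem_Icc]; exact h1⟩⟩, y, hy, rfl⟩, hy, rfl⟩
    · exact hQ.small _ y hy.1 y' hy'.1
    · rintro x₁ x₂ x₃ h12 h23 h13 ⟨⟨w₁, n₁⟩, _⟩ ⟨⟨w₂, n₂⟩, _⟩ ⟨⟨w₃, n₃⟩, _⟩ ⟨a1, b1⟩ ⟨a2, b2⟩ ⟨a3, b3⟩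
      simp only at a1 b1 a2 b2 a3 b3
      rcases hQ.triple x₁ x₂ x₃ h12 h23 h13 _ _ _ a1 a2 a3 with h | h | h
      · subst h
        left
        have := hclose x₁ x₂ h12 w₁ a1 a2
        rw [b1, b2] at this
        exact Subtype.ext (Prod.ext rfl (Subtype.ext this))
      · subst h
        right; left
        have := hclose x₂ x₃ h23 w₂ a2 a3
        rw [b2, b3] at this
        exact Subtype.ext (Prod.ext rfl (Subtype.ext this))
      · subst h
        right; right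
        have := hclose x₁ x₃ h13 w₁ a1 a3
        rw [b1, b3] at this
        exact Subtype.ext (Prod.ext rfl (Subtype.ext this))
  have hcard := hmax ι' inferInstance _ hQ'
  let π : ι' → ι := fun q => q.1.1
  have hπs : Function.Surjective π := by
    intro w
    obtain ⟨y, hy⟩ := hQ.nonempty w
    have h1 := abs_le.mp (hk3 w y hy)
    exact ⟨⟨⟨w, ⟨k w y, by rw [Finset.mem_Icc]; exact h1⟩⟩, y, hy, rfl⟩, rfl⟩
  have hcard2 : Fintype.card ι ≤ Fintype.card ι' := Fintype.card_le_of_surjective π hπs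
  have hπb : Function.Bijective π :=
    (Fintype.bijective_iff_surjective_and_card π).mpr ⟨hπs, le_antisymm hcard hcard2⟩
  have hconst : ∀ w y y', y ∈ Q w → y' ∈ Q w → k w y = k w y' := by
    intro w y y' hy hy'
    have h1 := abs_le.mp (hk3 w y hy)
    have h1' := abs_le.mp (hk3 w y' hy')
    let q : ι' := ⟨⟨w, ⟨k w y, by rw [Finset.mem_Icc]; exact h1⟩⟩, y, hy, rfl⟩
    let q' : ι' := ⟨⟨w, ⟨k w y', by rw [Finset.mem_Icc]; exact h1'⟩⟩, y', hy', rfl⟩
    have h2 : q = q' := hπb.1 rfl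
    have h3 : q.1.2 = q'.1.2 := by rw [h2]
    exact congrArg Subtype.val h3
  choose η hη using hQ.nonempty
  refine ⟨fun w => k w (η w), fun w w' hne => ?_⟩
  obtain ⟨y, hy, hy'⟩ := hne
  simp only
  rw [hconst w' (η w') y (hη w') hy', hconst w (η w) y (hη w) hy]
  exact hk2 w w' y hy hy'

/-- The nerve graph of a cover. -/
def nerve {Y : Type} {ι : Type} (Q : ι → Set Y) : SimpleGraph ι where
  Adj w w' := w ≠ w' ∧ (Q w ∩ Q w').Nonempty
  symm := ⟨fun w w' h => ⟨h.1.symm, by rw [inter_comm]; exact h.2⟩⟩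
  loopless := ⟨fun w h => h.1 rfl⟩

theorem maximal_acyclic {X Y : Type} [MetricSpace X] [CompactSpace X] [ConnectedSpace X]
    [MetricSpace Y] [CompactSpace Y] (hY : ∀ q : Y → Circle, Continuous q → HasLog q)
    {f : X → Y} (hf : Continuous f) (hs : Function.Surjective f)
    {p : X → Circle} (hp : Continuous p) (hps : Function.Surjective p) (hlog : ¬ HasLog p)
    {r δ : ℝ} (hr : 0 < r) {ι : Type} [Fintype ι] {Q : ι → Set Y}
    (hQ : IsGC f p r δ Q)
    (hmax : ∀ (ι' : Type) (_ : Fintype ι') (Q' : ι' → Set Y), IsGC f p r δ Q' →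
        Fintype.card ι' ≤ Fintype.card ι) : (nerve Q).IsAcyclic := by
  classical
  rw [SimpleGraph.isAcyclic_iff_forall_adj_isBridge]
  intro w1 w2 hadj
  rw [SimpleGraph.isBridge_iff]
  intro hreach
  obtain ⟨κ, hκ⟩ := maximal_const hY hf hs hp hps hlog hr hQ hmax hadj.1
  have h1 : κ w2 = κ w1 + 1 := by
    rw [hκ w1 w2 hadj.2]
    simp [io]
  have h2 : ∀ a b, ((nerve Q).deleteEdges {s(w1, w2)}).Reachable a b → κ a = κ b := by
    rintro a b ⟨walk⟩
    induction walk with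
    | nil => rfl
    | cons h _ ih =>
      rename_i u v w _
      rw [← ih]
      rw [SimpleGraph.deleteEdges_adj] at h
      have h4 := hκ u v h.1.2
      have h5 : io w1 w2 u v = 0 := by
        have h6 := h.2
        simp only [mem_singleton_iff, Sym2.eq_iff, not_or, not_and] at h6
        unfold io
        split_ifs with h7 h8
        · exact absurd h7.2 (h6.1 h7.1)
        · exact absurd h8.2 (h6.2 h8.1)
        · rfl
      rw [h4, h5, add_zero]
  have h3 := h2 w1 w2 hreach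
  omega

end Pool.Agent.Lib.MP_8afd67_gt
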