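import Mathlib
import Pool.Agent.Lib.MP_8afd67_gt.Split

set_option autoImplicit false

open Set Topology Filter

namespace Pool.Agent.Lib.MP_8afd67_gt

/-- Choice of values along a finite forest. -/
theorem forest_choice {ι : Type} [Finite ι] {C : Type*} (S : ι → Set C)
    (hS : ∀ w, (S w).Nonempty) (R : C → C → Prop) (hR : ∀ a b, R a b → R b a) :
    ∀ (n : ℕ) (G : SimpleGraph ι), G.IsAcyclic → G.edgeSet.ncard = n →
      (∀ v w, G.Adj v w → ∀ a ∈ S v, ∃ b ∈ S w, R a b) →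
      ∀ v₀, ∀ θ₀ ∈ S v₀, ∃ θ : ι → C, (∀ v, θ v ∈ S v) ∧ (∀ v w, G.Adj v w → R (θ v) (θ w)) ∧
        θ v₀ = θ₀ := by
  classical
  intro n
  induction n with
  | zero =>
    intro G _ hn _ v₀ θ₀ hθ₀
    choose η hη using hS
    refine ⟨Function.update η v₀ θ₀, fun v => ?_, fun v w h => ?_, by simp⟩
    · by_cases h : v = v₀
      · subst h; simpa using hθ₀
      · rw [Function.update_of_ne h]; exact hη v
    · have h1 : G.edgeSet = ∅ := (Set.ncard_eq_zero (Set.toFinite _)).mp hn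
      have h2 : s(v, w) ∈ G.edgeSet := h
      rw [h1] at h2
      exact absurd h2 (by simp)
  | succ n ih =>
    intro G hG hn hlift v₀ θ₀ hθ₀
    have hne : G.edgeSet.Nonempty := by
      rw [← Set.ncard_pos (Set.toFinite _)]
      omega
    obtain ⟨e, he⟩ := hne
    induction e using Sym2.ind with
    | h w1 w2 =>
    have hadj : G.Adj w1 w2 := he
    have hbr : ¬ (G.deleteEdges {s(w1, w2)}).Reachable w1 w2 := by
      rw [← SimpleGraph.isBridge_iff]
      exact SimpleGraph.isAcyclic_iff_forall_adj_isBridge.mp hG hadj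
    have hG' : (G.deleteEdges {s(w1, w2)}).IsAcyclic := hG.anti (SimpleGraph.deleteEdges_le _)
    have hn' : (G.deleteEdges {s(w1, w2)}).edgeSet.ncard = n := by
      rw [SimpleGraph.edgeSet_deleteEdges, Set.ncard_sdiff_singleton_of_mem he, hn]
      rfl
    have hlift' : ∀ v w, (G.deleteEdges {s(w1, w2)}).Adj v w → ∀ a ∈ S v, ∃ b ∈ S w, R a b :=
      fun v w h => hlift v w (SimpleGraph.deleteEdges_le _ h)
    -- symmetric step
    have key : ∀ a b, G.Adj a b → s(a, b) = s(w1, w2) →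
        ¬ (G.deleteEdges {s(w1, w2)}).Reachable a b →
        ¬ (G.deleteEdges {s(w1, w2)}).Reachable b v₀ →
        ∃ θ : ι → C, (∀ v, θ v ∈ S v) ∧ (∀ v w, G.Adj v w → R (θ v) (θ w)) ∧ θ v₀ = θ₀ := by
      intro a b hab hs hnr hnv
      obtain ⟨θ1, h1a, h1b, h1c⟩ := ih _ hG' hn' hlift' v₀ θ₀ hθ₀
      obtain ⟨c, hc, hc2⟩ := hlift a b hab (θ1 a) (h1a a)
      obtain ⟨θ2, h2a, h2b, h2c⟩ := ih _ hG' hn' hlift' b c hc
      have hθa : (if (G.deleteEdges {s(w1, w2)}).Reachable b a then θ2 a else θ1 a) = θ1 a :=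
        if_neg (fun h => hnr h.symm)
      have hθb : (if (G.deleteEdges {s(w1, w2)}).Reachable b b then θ2 b else θ1 b) = c := by
        rw [if_pos (SimpleGraph.Reachable.refl b), h2c]
      refine ⟨fun v => if (G.deleteEdges {s(w1, w2)}).Reachable b v then θ2 v else θ1 v,
        fun v => ?_, fun v w hvw => ?_, ?_⟩
      · simp only
        split_ifs
        · exact h2a v
        · exact h1a v
      · by_cases he2 : s(v, w) = s(w1, w2)
        · rw [← hs, Sym2.eq_iff] at he2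
          rcases he2 with ⟨rfl, rfl⟩ | ⟨rfl, rfl⟩
          · simp only
            rw [hθa, hθb]
            exact hc2
          · simp only
            rw [hθa, hθb]
            exact hR _ _ hc2
        · have hvw' : (G.deleteEdges {s(w1, w2)}).Adj v w := by
            rw [SimpleGraph.deleteEdges_adj]
            exact ⟨hvw, by simpa using he2⟩
          have hiff : (G.deleteEdges {s(w1, w2)}).Reachable b v ↔
              (G.deleteEdges {s(w1, w2)}).Reachable b w :=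
            ⟨fun h => h.trans hvw'.reachable, fun h => h.trans hvw'.symm.reachable⟩
          simp only
          by_cases h : (G.deleteEdges {s(w1, w2)}).Reachable b v
          · rw [if_pos h, if_pos (hiff.mp h)]
            exact h2b v w hvw'
          · rw [if_neg h, if_neg (fun h' => h (hiff.mpr h'))]
            exact h1b v w hvw'
      · simp only
        rw [if_neg hnv]
        exact h1c
    by_cases hv : (G.deleteEdges {s(w1, w2)}).Reachable w2 v₀
    · refine key w2 w1 hadj.symm Sym2.eq_swap (fun h => hbr h.symm) (fun h => ?_)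
      exact hbr (h.trans hv.symm)
    · exact key w1 w2 hadj rfl hbr hv

/-- Selection through a map with a logarithm. -/
theorem log_selection {X Y : Type} [MetricSpace X] [CompactSpace X] [MetricSpace Y]
    {f : X → Y} (hf : Continuous f) (hs : Function.Surjective f) (ho : IsOpenMap f)
    {p : X → Circle} (hlog : HasLog p) {ε : ℝ}
    (hp2 : ∀ x x', p x = p x' → dist (f x) (f x') < ε) :
    ∃ G : Y → Circle, Continuous G ∧ ∀ y y', G y = G y' → dist y y' < ε := by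
  obtain ⟨h, hh, hh2⟩ := hlog
  obtain ⟨m, hm, hm2⟩ := fibre_min hf hs ho hh
  refine ⟨fun y => Circle.exp (m y), by fun_prop, fun y y' hyy => ?_⟩
  obtain ⟨x, rfl, hx⟩ := hm2 y
  obtain ⟨x', rfl, hx'⟩ := hm2 y'
  apply hp2
  rw [hh2, hh2, hx, hx']
  exact hyy

theorem case_B {X Y : Type} [MetricSpace X] [CompactSpace X] [ConnectedSpace X]
    [MetricSpace Y] [CompactSpace Y] (hY : ∀ q : Y → Circle, Continuous q → HasLog q)
    {f : X → Y} (hf : Continuous f) (hs : Function.Surjective f) (ho : IsOpenMap f)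
    (hX : ∀ ε > 0, ∃ p : X → Circle, Continuous p ∧ Function.Surjective p ∧
      ∀ x x', p x = p x' → dist (f x) (f x') < ε) {ε : ℝ} (hε : 0 < ε) :
    ∃ G : Y → Circle, Continuous G ∧ ∀ y y', G y = G y' → dist y y' < ε := by
  classical
  by_cases hB1 : ∃ p : X → Circle, Continuous p ∧ HasLog p ∧
      ∀ x x', p x = p x' → dist (f x) (f x') < ε
  · obtain ⟨p, hp, hlog, hp2⟩ := hB1
    exact log_selection hf hs ho hlog hp2
  push Not at hB1
  -- target map
  obtain ⟨p₁, hp₁, hp₁s, hp₁2⟩ := hX (ε / 3) (by linarith)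
  obtain ⟨l, hl, hl2⟩ := exists_dist hp₁ hf hp₁2
  obtain ⟨η, hη, hη1, hηl⟩ : ∃ η > 0, η < 1 ∧ 4 * η < l :=
    ⟨min (l / 5) (1 / 2), by positivity, lt_of_le_of_lt (min_le_right _ _) (by norm_num), by
      have := min_le_left (l / 5) (1 / 2)
      linarith⟩
  obtain ⟨η', hη', huc⟩ := Metric.uniformContinuous_iff.mp
    (CompactSpace.uniformContinuous_of_continuous hp₁) η hη
  obtain ⟨δ₀, hδ₀, hop⟩ := unif_open hf ho hη'
  obtain ⟨δ, hδ, hδ1, hδ2⟩ : ∃ δ > 0, 2 * δ ≤ δ₀ ∧ δ ≤ ε / 3 :=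
    ⟨min (δ₀ / 2) (ε / 3), by positivity, by
      have := min_le_left (δ₀ / 2) (ε / 3)
      linarith, min_le_right _ _⟩
  -- cover
  obtain ⟨p₂, hp₂, hp₂s, hp₂2⟩ := hX (δ / 4) (by linarith)
  obtain ⟨r₂, hr₂, hr₂2⟩ := exists_cl hp₂ hf hp₂2
  obtain ⟨ι₀, hι₀, Q₀, hc₀, hcov₀, hsm₀, h3₀⟩ := exists_cover hf hs ho hp₂ hp₂s hr₂ hr₂2
  obtain ⟨ε₁, hε₁, htr⟩ := triple_number hc₀ h3₀
  obtain ⟨p₃, hp₃, hp₃s, hp₃2⟩ := hX (min ε₁ ε) (by positivity)
  have hp₃log : ¬ HasLog p₃ := by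
    intro h
    obtain ⟨x, x', h1, h2⟩ := hB1 p₃ hp₃ h
    have h3 := hp₃2 x x' h1
    have h4 := min_le_right ε₁ ε
    linarith
  obtain ⟨r, hr, hr2⟩ := exists_cl hp₃ hf hp₃2
  have hgc : ∃ (ι : Type) (_ : Fintype ι) (Q : ι → Set Y), IsGC f p₃ r δ Q :=
    gc_exists (ε := ε₁) (fun x x' h => lt_of_lt_of_le (hr2 x x' h) (min_le_left _ _)) hc₀ hcov₀
      (fun w y hy y' hy' => by
        have := hsm₀ w y hy y' hy'
        linarith) htr
  obtain ⟨ι, hι, Q, hQ, hmax⟩ := gc_maximal hs hr hgc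
  have hacyc := maximal_acyclic hY hf hs hp₃ hp₃s hp₃log hr hQ hmax
  choose ref href using hQ.nonempty
  let S : ι → Set Circle := fun w => {θ | ∃ x, f x = ref w ∧ p₁ x = θ}
  have hSne : ∀ w, (S w).Nonempty := by
    intro w
    obtain ⟨x, hx⟩ := hs (ref w)
    exact ⟨p₁ x, x, hx, rfl⟩
  have hlift : ∀ v w, (nerve Q).Adj v w → ∀ a ∈ S v, ∃ b ∈ S w, dist a b < η := by
    rintro v w ⟨-, y, hyv, hyw⟩ a ⟨x, hx, rfl⟩
    have h1 : dist (f x) (ref w) < δ₀ := by
      rw [hx]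
      have e1 := hQ.small v _ (href v) y hyv
      have e2 := hQ.small w y hyw _ (href w)
      linarith [dist_triangle (ref v) y (ref w)]
    obtain ⟨x', hx', hd⟩ := hop x (ref w) h1
    exact ⟨p₁ x', ⟨x', hx', rfl⟩, huc hd⟩
  obtain ⟨x₀⟩ : Nonempty X := inferInstance
  obtain ⟨v₀, -⟩ := hQ.cover (f x₀)
  obtain ⟨θ₀, hθ₀⟩ := hSne v₀
  obtain ⟨θ, hθ1, hθ2, -⟩ := forest_choice S hSne (fun a b => dist a b < η)
    (fun a b h => by rw [dist_comm]; exact h) _ (nerve Q) hacyc rfl hlift v₀ θ₀ hθ₀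
  obtain ⟨G, hG, hG2⟩ := circle_sel (W := Y) (fun y => {t | ∃ w, y ∈ Q w ∧ θ w = t})
    (fun y => by
      obtain ⟨w, hw⟩ := hQ.cover y
      exact ⟨θ w, w, hw, rfl⟩) (δ := η) hη1 (fun y₀ => by
      obtain ⟨w₀, hw₀⟩ := hQ.cover y₀
      refine ⟨θ w₀, ?_⟩
      have h1 : ∀ᶠ y in 𝓝 y₀, ∀ w, y ∈ Q w → y₀ ∈ Q w := by
        rw [Filter.eventually_all]
        intro w
        by_cases h : y₀ ∈ Q w
        · exact Filter.Eventually.of_forall fun y _ => h
        · filter_upwards [(hQ.closed w).isOpen_compl.mem_nhds h] with y hy hy2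
          exact absurd hy2 hy
      filter_upwards [h1] with y hy
      rintro t ⟨w, hw, rfl⟩
      by_cases h : w₀ = w
      · rw [h, dist_self]; exact hη.le
      · exact (hθ2 w₀ w ⟨h, y₀, hw₀, hy w hw⟩).le)
  refine ⟨G, hG, fun y y' hyy => ?_⟩
  obtain ⟨w, hw⟩ := hQ.cover y
  obtain ⟨w', hw'⟩ := hQ.cover y'
  have e1 := hG2 y (θ w) ⟨w, hw, rfl⟩
  have e2 := hG2 y' (θ w') ⟨w', hw', rfl⟩
  rw [← hyy] at e2
  have e3 : dist (θ w) (θ w') < l := by
    have := dist_triangle_left (θ w) (θ w') (G y)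
    linarith
  obtain ⟨x, hx, hx2⟩ := hθ1 w
  obtain ⟨x', hx', hx2'⟩ := hθ1 w'
  rw [← hx2, ← hx2'] at e3
  have e4 := hl2 x x' e3
  rw [hx, hx'] at e4
  have e5 := hQ.small w y hw _ (href w)
  have e6 := hQ.small w' _ (href w') y' hw'
  have e7 := dist_triangle4 y (ref w) (ref w') y'
  linarith

end Pool.Agent.Lib.MP_8afd67_gt
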