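import Mathlib
import Pool.Agent.Lib.MP_8afd67_gt.CaseA
import Pool.Agent.Lib.MP_8afd67_gt.CaseB

set_option autoImplicit false

open Set Topology Filter

namespace Pool.Agent.Lib.MP_8afd67_gt

theorem exists_small {X Y : Type} [MetricSpace X] [CompactSpace X] [ConnectedSpace X]
    [MetricSpace Y] [CompactSpace Y]
    {g : X → Y} (hg : Continuous g) (hs : Function.Surjective g) (ho : IsOpenMap g)
    (hX : ∀ ε > 0, ∃ p : X → Circle, Continuous p ∧ Function.Surjective p ∧
      ∀ x x', p x = p x' → dist x x' < ε) {ε : ℝ} (hε : 0 < ε) :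
    ∃ G : Y → Circle, Continuous G ∧ ∀ y y', G y = G y' → dist y y' < ε := by
  by_cases hY : ∀ q : Y → Circle, Continuous q → HasLog q
  · refine case_B hY hg hs ho ?_ hε
    intro ε' hε'
    obtain ⟨δ, hδ, hu⟩ := Metric.uniformContinuous_iff.mp
      (CompactSpace.uniformContinuous_of_continuous hg) ε' hε'
    obtain ⟨p, h1, h2, h3⟩ := hX δ hδ
    exact ⟨p, h1, h2, fun x x' h => hu (h3 x x' h)⟩
  · push Not at hY
    obtain ⟨q, hq, hql⟩ := hY
    obtain ⟨G, h1, h2⟩ := case_A hg hs ho hX hq hql (ε := ε / 3) (by linarith)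
    refine ⟨G, h1, fun y y' h => ?_⟩
    have := h2 y y' h
    linarith

theorem main {X Y : Type} [MetricSpace X] [CompactSpace X] [ConnectedSpace X]
    [MetricSpace Y] [CompactSpace Y] [ConnectedSpace Y] [Nontrivial Y]
    {g : X → Y} (hg : Continuous g) (hs : Function.Surjective g) (ho : IsOpenMap g)
    (hX : ∀ ε : ℝ, 0 < ε → ∃ f : X → Circle, Continuous f ∧ Function.Surjective f ∧
          ∀ z : Circle, Metric.diam (f ⁻¹' {z}) < ε) :
      (∀ ε : ℝ, 0 < ε → ∃ f : Y → Circle, Continuous f ∧ Function.Surjective f ∧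
          ∀ z : Circle, Metric.diam (f ⁻¹' {z}) < ε) ∨
      (∀ ε : ℝ, 0 < ε → ∃ f : Y → unitInterval, Continuous f ∧ Function.Surjective f ∧
          ∀ t : unitInterval, Metric.diam (f ⁻¹' {t}) < ε) := by
  have hX' : ∀ ε > 0, ∃ p : X → Circle, Continuous p ∧ Function.Surjective p ∧
      ∀ x x', p x = p x' → dist x x' < ε := by
    intro ε hε
    obtain ⟨p, h1, h2, h3⟩ := hX ε hε
    refine ⟨p, h1, h2, fun x x' hxx => ?_⟩
    have hb : Bornology.IsBounded (p ⁻¹' {p x}) :=
      (isCompact_univ.isBounded).subset (subset_univ _)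
    exact lt_of_le_of_lt (Metric.dist_le_diam_of_mem hb rfl hxx.symm) (h3 (p x))
  rw [or_iff_not_imp_left]
  intro hno ε hε
  push Not at hno
  obtain ⟨ε₀, hε₀, hno⟩ := hno
  obtain ⟨y₁, y₂, hy⟩ := exists_pair_ne Y
  have hd : 0 < dist y₁ y₂ := dist_pos.mpr hy
  obtain ⟨ε', h0, h1, h2, h3⟩ : ∃ ε' > 0, ε' < ε ∧ ε' < ε₀ ∧ ε' < dist y₁ y₂ :=
    ⟨min (min ε ε₀) (dist y₁ y₂) / 2, by positivity, by
      have e1 := min_le_left (min ε ε₀) (dist y₁ y₂)
      have e2 := min_le_left ε ε₀
      linarith, by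
      have e1 := min_le_left (min ε ε₀) (dist y₁ y₂)
      have e2 := min_le_right ε ε₀
      linarith, by
      have e1 := min_le_right (min ε ε₀) (dist y₁ y₂)
      linarith⟩
  obtain ⟨G, hG, hG2⟩ := exists_small hg hs ho hX' h0
  have hns : ¬ Function.Surjective G := by
    intro hsur
    obtain ⟨z, hz⟩ := hno G hG hsur
    have : Metric.diam (G ⁻¹' {z}) ≤ ε' := by
      refine Metric.diam_le_of_forall_dist_le h0.le ?_
      intro x hx y hy
      exact (hG2 x y (by rw [show G x = z from hx, show G y = z from hy])).le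
    linarith
  obtain ⟨l, hl, hl2⟩ := log_of_not_surjective hG hns
  obtain ⟨ym, -, hm⟩ := isCompact_univ.exists_isMinOn (univ_nonempty (α := Y)) (f := l)
    hl.continuousOn
  obtain ⟨yM, -, hM⟩ := isCompact_univ.exists_isMaxOn (univ_nonempty (α := Y)) (f := l)
    hl.continuousOn
  have hm' : ∀ y, l ym ≤ l y := fun y => hm (mem_univ y)
  have hM' : ∀ y, l y ≤ l yM := fun y => hM (mem_univ y)
  have hlt : l ym < l yM := by
    by_contra hcon
    push Not at hcon
    have e1 : l y₁ = l y₂ := by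
      have a1 := hm' y₁
      have a2 := hm' y₂
      have a3 := hM' y₁
      have a4 := hM' y₂
      linarith
    have e2 := hG2 _ _ (hl2 _ _ e1)
    linarith
  have hpos : 0 < l yM - l ym := by linarith
  refine ⟨fun y => ⟨(l y - l ym) / (l yM - l ym), ?_, ?_⟩, ?_, ?_, ?_⟩
  · exact div_nonneg (by linarith [hm' y]) hpos.le
  · rw [div_le_one hpos]
    linarith [hM' y]
  · exact Continuous.subtype_mk (by fun_prop) _
  · rintro ⟨t, ht0, ht1⟩
    obtain ⟨y, hy⟩ := mem_range_of_exists_le_of_exists_ge (c := l ym + t * (l yM - l ym)) hl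
      ⟨ym, by nlinarith⟩ ⟨yM, by nlinarith⟩
    refine ⟨y, ?_⟩
    apply Subtype.ext
    simp only
    rw [hy]
    field_simp
    ring
  · intro t
    refine lt_of_le_of_lt (Metric.diam_le_of_forall_dist_le h0.le ?_) h1
    intro x hx y hy
    have e1 := congrArg Subtype.val (hx.trans hy.symm)
    simp only at e1
    rw [div_left_inj' hpos.ne'] at e1
    exact (hG2 x y (hl2 _ _ (by linarith))).le

end Pool.Agent.Lib.MP_8afd67_gt
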